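import Mathlib

/-!
# Superadditivity of the additive energy over scales
-/

set_option autoImplicit false

open Finset

namespace Pool.Agent.R448

/-- the number of ordered pairs of elements of `F` with sum `n` -/
def rZ (F : Finset ℤ) (n : ℤ) : ℕ := ((F ×ˢ F).filter (fun p => p.1 + p.2 = n)).card

/-- the number of ordered pairs of elements of `F` with difference `d` -/
def dZ (F : Finset ℤ) (d : ℤ) : ℕ := ((F ×ˢ F).filter (fun p => p.1 - p.2 = d)).card

/-- the energy is at most `K |F| ^ 2` -/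
theorem energy_le (F W : Finset ℤ) (K : ℕ) (hK : ∀ n, rZ F n ≤ K) :
    ∑ d ∈ W, dZ F d ^ 2 ≤ K * F.card ^ 2 := by
  classical
  -- quadruples
  have h1 : ∀ d, dZ F d ^ 2 = (((F ×ˢ F) ×ˢ (F ×ˢ F)).filter
      (fun q => q.1.1 - q.1.2 = d ∧ q.2.1 - q.2.2 = d)).card := by
    intro d
    rw [dZ, sq, ← Finset.card_product, ← Finset.filter_product]
  have h2 : ∑ d ∈ W, dZ F d ^ 2 ≤ (((F ×ˢ F) ×ˢ (F ×ˢ F)).filter
      (fun q => q.1.1 - q.1.2 = q.2.1 - q.2.2)).card := by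
    rw [Finset.sum_congr rfl (fun d _ => h1 d)]
    rw [← Finset.card_biUnion]
    · apply Finset.card_le_card
      intro q hq
      rw [Finset.mem_biUnion] at hq
      obtain ⟨d, _, hq⟩ := hq
      rw [Finset.mem_filter] at hq ⊢
      exact ⟨hq.1, hq.2.1.trans hq.2.2.symm⟩
    · intro d _ d' _ hdd
      rw [Function.onFun, Finset.disjoint_left]
      intro q hq hq'
      rw [Finset.mem_filter] at hq hq'
      exact hdd (hq.2.1.symm.trans hq'.2.1)
  refine h2.trans ?_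
  -- rearrange
  have h3 : (((F ×ˢ F) ×ˢ (F ×ˢ F)).filter
      (fun q => q.1.1 - q.1.2 = q.2.1 - q.2.2)).card =
      (((F ×ˢ F) ×ˢ (F ×ˢ F)).filter
        (fun q => q.2.1 + q.2.2 = q.1.1 + q.1.2)).card := by
    apply Finset.card_bij (fun q _ => ((q.1.1, q.2.2), (q.2.1, q.1.2)))
    · rintro ⟨⟨a, b⟩, ⟨c, d⟩⟩ hq
      simp only [Finset.mem_filter, Finset.mem_product] at hq ⊢
      obtain ⟨⟨⟨ha, hb⟩, hc, hd⟩, h⟩ := hq
      exact ⟨⟨⟨ha, hd⟩, hc, hb⟩, by linarith⟩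
    · rintro ⟨⟨a, b⟩, ⟨c, d⟩⟩ _ ⟨⟨a', b'⟩, ⟨c', d'⟩⟩ _ h
      simp only [Prod.mk.injEq] at h
      obtain ⟨⟨h1, h2⟩, h3, h4⟩ := h
      subst h1 h2 h3 h4
      rfl
    · rintro ⟨⟨a, b⟩, ⟨c, d⟩⟩ hq
      simp only [Finset.mem_filter, Finset.mem_product] at hq
      obtain ⟨⟨⟨ha, hb⟩, hc, hd⟩, h⟩ := hq
      refine ⟨((a, d), (c, b)), ?_, rfl⟩
      simp only [Finset.mem_filter, Finset.mem_product]
      exact ⟨⟨⟨ha, hd⟩, hc, hb⟩, by linarith⟩
  rw [h3]
  have h4 : (((F ×ˢ F) ×ˢ (F ×ˢ F)).filter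
        (fun q => q.2.1 + q.2.2 = q.1.1 + q.1.2)).card =
      ∑ p ∈ F ×ˢ F, rZ F (p.1 + p.2) := by
    rw [Finset.card_filter, Finset.sum_product]
    apply Finset.sum_congr rfl
    intro p _
    rw [rZ, Finset.card_filter]
  rw [h4]
  calc ∑ p ∈ F ×ˢ F, rZ F (p.1 + p.2) ≤ ∑ p ∈ F ×ˢ F, K := Finset.sum_le_sum fun p _ => hK _
    _ = K * F.card ^ 2 := by
        rw [Finset.sum_const, Finset.card_product, smul_eq_mul]
        ring

/-- duality between the differences of `F` and a weight -/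
theorem duality (F W : Finset ℤ) (K : ℕ) (hK : ∀ n, rZ F n ≤ K) (Φ : ℤ → ℝ)
    (hW : ∀ p ∈ F ×ˢ F, p.1 - p.2 ∉ W → Φ (p.1 - p.2) = 0) :
    (∑ p ∈ F ×ˢ F, Φ (p.1 - p.2)) ^ 2 ≤ K * (F.card : ℝ) ^ 2 * ∑ d ∈ W, Φ d ^ 2 := by
  classical
  have h1 : ∑ p ∈ F ×ˢ F, Φ (p.1 - p.2) = ∑ d ∈ W, (dZ F d : ℝ) * Φ d := by
    have h2 : ∑ p ∈ F ×ˢ F, Φ (p.1 - p.2) =
        ∑ p ∈ (F ×ˢ F).filter (fun p => p.1 - p.2 ∈ W), Φ (p.1 - p.2) := by
      rw [Finset.sum_filter]
      apply Finset.sum_congr rfl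
      intro p hp
      split_ifs with h
      · rfl
      · exact hW p hp h
    rw [h2]
    rw [← Finset.sum_fiberwise_of_maps_to (s := (F ×ˢ F).filter (fun p => p.1 - p.2 ∈ W))
      (t := W) (g := fun p => p.1 - p.2) (fun p hp => (Finset.mem_filter.1 hp).2)]
    apply Finset.sum_congr rfl
    intro d hd
    have h3 : ((F ×ˢ F).filter (fun p => p.1 - p.2 ∈ W)).filter (fun p => p.1 - p.2 = d) =
        (F ×ˢ F).filter (fun p => p.1 - p.2 = d) := by
      ext p
      simp only [Finset.mem_filter]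
      constructor
      · rintro ⟨⟨h1, _⟩, h2⟩
        exact ⟨h1, h2⟩
      · rintro ⟨h1, h2⟩
        exact ⟨⟨h1, by rw [h2]; exact hd⟩, h2⟩
    rw [h3, dZ, ← nsmul_eq_mul, ← Finset.sum_const]
    apply Finset.sum_congr rfl
    intro p hp
    rw [(Finset.mem_filter.1 hp).2]
  rw [h1]
  have h2 := Finset.sum_mul_sq_le_sq_mul_sq W (fun d => (dZ F d : ℝ)) Φ
  refine h2.trans ?_
  apply mul_le_mul_of_nonneg_right _ (Finset.sum_nonneg fun d _ => sq_nonneg _)
  exact_mod_cast energy_le F W K hK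

/-- geometric sums over a range around a point -/
theorem geom_both (s : ℝ) (h0 : 0 < s) (h1 : s < 1) (k i : ℕ) (hi : i < k) :
    ∑ j ∈ range k, s ^ ((i - j) + (j - i)) ≤ (1 + s) / (1 - s) := by
  have hs : 0 < 1 - s := by linarith
  have hgeo : ∀ n : ℕ, ∑ l ∈ range n, s ^ l ≤ 1 / (1 - s) := by
    intro n
    rw [geom_sum_eq h1.ne, ← neg_div_neg_eq]
    apply div_le_div₀ (by norm_num) _ hs (by linarith)
    have := pow_nonneg h0.le n
    linarith
  obtain ⟨m, rfl⟩ : ∃ m, k = (i + 1) + m := ⟨k - (i + 1), by omega⟩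
  rw [Finset.sum_range_add]
  have h2 : ∑ j ∈ range (i + 1), s ^ ((i - j) + (j - i)) = ∑ l ∈ range (i + 1), s ^ l := by
    rw [← Finset.sum_range_reflect]
    apply Finset.sum_congr rfl
    intro j hj
    rw [mem_range] at hj
    congr 1
    omega
  have h3 : ∑ x ∈ range m, s ^ ((i - (i + 1 + x)) + ((i + 1 + x) - i)) =
      s * ∑ l ∈ range m, s ^ l := by
    rw [Finset.mul_sum]
    apply Finset.sum_congr rfl
    intro x _
    rw [← pow_succ']
    congr 1
    omega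
  rw [h2, h3]
  have h4 := hgeo (i + 1)
  have h5 := hgeo m
  have h6 : (1 + s) / (1 - s) = 1 / (1 - s) + s * (1 / (1 - s)) := by ring
  rw [h6]
  have h7 : s * ∑ l ∈ range m, s ^ l ≤ s * (1 / (1 - s)) := mul_le_mul_of_nonneg_left h5 h0.le
  linarith

/-- Schur's bound for the kernel `s ^ |i - j|` -/
theorem schur (s : ℝ) (h0 : 0 < s) (h1 : s < 1) (k : ℕ) (t : ℕ → ℝ) :
    ∑ i ∈ range k, ∑ j ∈ range k, t i * t j * s ^ ((i - j) + (j - i)) ≤
      (1 + s) / (1 - s) * ∑ i ∈ range k, t i ^ 2 := by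
  have h2 : ∀ i ∈ range k, ∀ j ∈ range k, t i * t j * s ^ ((i - j) + (j - i)) ≤
      (t i ^ 2 / 2) * s ^ ((i - j) + (j - i)) + (t j ^ 2 / 2) * s ^ ((i - j) + (j - i)) := by
    intro i _ j _
    rw [← add_mul]
    apply mul_le_mul_of_nonneg_right _ (pow_nonneg h0.le _)
    nlinarith [sq_nonneg (t i - t j)]
  have h3 : ∑ i ∈ range k, ∑ j ∈ range k, t i * t j * s ^ ((i - j) + (j - i)) ≤
      ∑ i ∈ range k, ∑ j ∈ range k, ((t i ^ 2 / 2) * s ^ ((i - j) + (j - i)) +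
        (t j ^ 2 / 2) * s ^ ((i - j) + (j - i))) :=
    Finset.sum_le_sum fun i hi => Finset.sum_le_sum fun j hj => h2 i hi j hj
  refine h3.trans ?_
  have h4 : ∀ i ∈ range k, ∑ j ∈ range k, (t i ^ 2 / 2) * s ^ ((i - j) + (j - i)) ≤
      (t i ^ 2 / 2) * ((1 + s) / (1 - s)) := by
    intro i hi
    rw [← Finset.mul_sum]
    exact mul_le_mul_of_nonneg_left (geom_both s h0 h1 k i (mem_range.1 hi)) (by positivity)
  have h5 : ∑ i ∈ range k, ∑ j ∈ range k, (t i ^ 2 / 2) * s ^ ((i - j) + (j - i)) ≤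
      ∑ i ∈ range k, (t i ^ 2 / 2) * ((1 + s) / (1 - s)) := Finset.sum_le_sum h4
  have h6 : ∑ i ∈ range k, ∑ j ∈ range k, (t j ^ 2 / 2) * s ^ ((i - j) + (j - i)) =
      ∑ i ∈ range k, ∑ j ∈ range k, (t i ^ 2 / 2) * s ^ ((i - j) + (j - i)) := by
    rw [Finset.sum_comm]
    apply Finset.sum_congr rfl
    intro i _
    apply Finset.sum_congr rfl
    intro j _
    rw [add_comm (j - i) (i - j)]
  simp only [Finset.sum_add_distrib]
  rw [h6]
  have h7 : ∑ i ∈ range k, (t i ^ 2 / 2) * ((1 + s) / (1 - s)) =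
      ((1 + s) / (1 - s) * ∑ i ∈ range k, t i ^ 2) / 2 := by
    rw [Finset.mul_sum, Finset.sum_div]
    apply Finset.sum_congr rfl
    intro i _
    ring
  rw [h7] at h5
  linarith

/-- **The main inequality.** -/
theorem main (F : Finset ℤ) (hF : F.Nonempty) (K : ℕ) (hK : ∀ n, rZ F n ≤ K) (k : ℕ)
    (D : ℕ → Finset ℤ) (x u : ℕ → ℝ) (s : ℝ) (h0 : 0 < s) (h1 : s < 1)
    (hx : ∀ j < k, 0 < x j) (hu : ∀ j < k, 0 < u j)
    (hpair : ∀ j < k, (F.card : ℝ) ^ 2 / x j ≤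
      (((F ×ˢ F).filter (fun p => p.1 - p.2 ∈ D j)).card : ℝ))
    (hD : ∀ j < k, ((D j).card : ℝ) ≤ u j ^ 2)
    (hlac : ∀ i < k, ∀ j < k, min (u i ^ 2) (u j ^ 2) ≤ s ^ ((i - j) + (j - i)) * (u i * u j)) :
    (F.card : ℝ) ^ 2 * ∑ j ∈ range k, 1 / (x j * u j) ^ 2 ≤ K * ((1 + s) / (1 - s)) := by
  classical
  set c : ℕ → ℝ := fun j => 1 / (x j * u j ^ 2) with hc
  set t : ℕ → ℝ := fun j => 1 / (x j * u j) with ht
  set S : ℝ := ∑ j ∈ range k, t j ^ 2 with hS
  set W : Finset ℤ := (range k).biUnion D with hWdef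
  set Φ : ℤ → ℝ := fun d => ∑ j ∈ range k, c j * (if d ∈ D j then 1 else 0) with hΦ
  have hFc : (0 : ℝ) < F.card := by exact_mod_cast hF.card_pos
  have hc0 : ∀ j ∈ range k, 0 < c j := by
    intro j hj
    rw [mem_range] at hj
    have := hx j hj
    have := hu j hj
    simp only [hc]
    positivity
  have hdual := duality F W K hK Φ (by
    intro p _ hp
    simp only [hΦ]
    apply Finset.sum_eq_zero
    intro j hj
    have : p.1 - p.2 ∉ D j := fun h => hp (Finset.mem_biUnion.2 ⟨j, hj, h⟩)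
    rw [if_neg this, mul_zero])
  -- lower bound
  have hlow : (F.card : ℝ) ^ 2 * S ≤ ∑ p ∈ F ×ˢ F, Φ (p.1 - p.2) := by
    simp only [hΦ]
    rw [Finset.sum_comm, hS, Finset.mul_sum]
    apply Finset.sum_le_sum
    intro j hj
    rw [← Finset.mul_sum]
    have h2 : ∑ p ∈ F ×ˢ F, (if p.1 - p.2 ∈ D j then (1 : ℝ) else 0) =
        (((F ×ˢ F).filter (fun p => p.1 - p.2 ∈ D j)).card : ℝ) := by
      rw [Finset.sum_boole]
    rw [h2]
    have h3 := hpair j (mem_range.1 hj)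
    have hxj := hx j (mem_range.1 hj)
    have huj := hu j (mem_range.1 hj)
    calc (F.card : ℝ) ^ 2 * t j ^ 2 = c j * ((F.card : ℝ) ^ 2 / x j) := by
          simp only [ht, hc]
          field_simp
      _ ≤ _ := mul_le_mul_of_nonneg_left h3 (hc0 j hj).le
  -- upper bound
  have hup : ∑ d ∈ W, Φ d ^ 2 ≤ (1 + s) / (1 - s) * S := by
    have h2 : ∀ d, Φ d ^ 2 = ∑ i ∈ range k, ∑ j ∈ range k,
        c i * c j * (if d ∈ D i ∩ D j then 1 else 0) := by
      intro d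
      simp only [hΦ]
      rw [sq, Finset.sum_mul_sum]
      apply Finset.sum_congr rfl
      intro i _
      apply Finset.sum_congr rfl
      intro j _
      by_cases hi : d ∈ D i <;> by_cases hj : d ∈ D j <;> simp [hi, hj]
    rw [Finset.sum_congr rfl (fun d _ => h2 d), Finset.sum_comm]
    refine le_trans ?_ (schur s h0 h1 k t)
    apply Finset.sum_le_sum
    intro i hi
    rw [Finset.sum_comm]
    apply Finset.sum_le_sum
    intro j hj
    rw [← Finset.mul_sum, Finset.sum_boole]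
    have h3 : ((W.filter (fun d => d ∈ D i ∩ D j)).card : ℝ) ≤ min (u i ^ 2) (u j ^ 2) := by
      apply le_min
      · refine le_trans ?_ (hD i (mem_range.1 hi))
        exact_mod_cast Finset.card_le_card (fun d hd =>
          (Finset.mem_inter.1 (Finset.mem_filter.1 hd).2).1)
      · refine le_trans ?_ (hD j (mem_range.1 hj))
        exact_mod_cast Finset.card_le_card (fun d hd =>
          (Finset.mem_inter.1 (Finset.mem_filter.1 hd).2).2)
    have hci := hc0 i hi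
    have hcj := hc0 j hj
    have hxi := hx i (mem_range.1 hi)
    have hui := hu i (mem_range.1 hi)
    have hxj := hx j (mem_range.1 hj)
    have huj := hu j (mem_range.1 hj)
    calc c i * c j * ((W.filter (fun d => d ∈ D i ∩ D j)).card : ℝ)
        ≤ c i * c j * (s ^ ((i - j) + (j - i)) * (u i * u j)) :=
          mul_le_mul_of_nonneg_left (h3.trans (hlac i (mem_range.1 hi) j (mem_range.1 hj)))
            (by positivity)
      _ = t i * t j * s ^ ((i - j) + (j - i)) := by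
          simp only [ht, hc]
          field_simp
  have hS0 : 0 ≤ S := Finset.sum_nonneg fun j _ => sq_nonneg _
  have hgoal : ∑ j ∈ range k, 1 / (x j * u j) ^ 2 = S := by
    rw [hS]
    apply Finset.sum_congr rfl
    intro j _
    simp only [ht]
    rw [div_pow, one_pow]
  rw [hgoal]
  rcases hS0.eq_or_lt with hS1 | hS1
  · rw [← hS1, mul_zero]
    have : 0 < 1 - s := by linarith
    positivity
  · have h2 : ((F.card : ℝ) ^ 2 * S) ^ 2 ≤ K * (F.card : ℝ) ^ 2 * ((1 + s) / (1 - s) * S) := by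
      have h3 : ((F.card : ℝ) ^ 2 * S) ^ 2 ≤ (∑ p ∈ F ×ˢ F, Φ (p.1 - p.2)) ^ 2 :=
        pow_le_pow_left₀ (by positivity) hlow 2
      exact h3.trans (hdual.trans (mul_le_mul_of_nonneg_left hup (by positivity)))
    have h3 : ((F.card : ℝ) ^ 2 * S) * ((F.card : ℝ) ^ 2 * S) ≤
        (K * ((1 + s) / (1 - s))) * ((F.card : ℝ) ^ 2 * S) := by
      nlinarith [h2]
    exact le_of_mul_le_mul_right h3 (by positivity)

/-- pairs in the same cell of a partition -/
theorem pairs_in_cells {ι : Type*} [DecidableEq ι] (F : Finset ℤ) (φ : ℤ → ι) (C : Finset ι)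
    (hC : ∀ a ∈ F, φ a ∈ C) (D : Finset ℤ)
    (hD : ∀ a ∈ F, ∀ b ∈ F, φ a = φ b → a - b ∈ D) :
    (F.card : ℝ) ^ 2 ≤ C.card * (((F ×ˢ F).filter (fun p => p.1 - p.2 ∈ D)).card : ℝ) := by
  classical
  have h1 : (F.card : ℝ) = ∑ c ∈ C, ((F.filter (fun a => φ a = c)).card : ℝ) := by
    have := Finset.card_eq_sum_card_fiberwise (f := φ) (s := F) (t := C) hC
    rw [this]
    push_cast
    rfl
  have h2 : (F.card : ℝ) ^ 2 ≤ C.card * ∑ c ∈ C, ((F.filter (fun a => φ a = c)).card : ℝ) ^ 2 := by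
    rw [h1]
    exact sq_sum_le_card_mul_sum_sq
  refine h2.trans (mul_le_mul_of_nonneg_left ?_ (Nat.cast_nonneg _))
  have h3 : ∀ c ∈ C, ((F.filter (fun a => φ a = c)).card : ℝ) ^ 2 =
      (((F.filter (fun a => φ a = c)) ×ˢ (F.filter (fun a => φ a = c))).card : ℝ) := by
    intro c _
    rw [Finset.card_product]
    push_cast
    ring
  rw [Finset.sum_congr rfl h3]
  have h4 : ∑ c ∈ C, (((F.filter (fun a => φ a = c)) ×ˢ (F.filter (fun a => φ a = c))).card : ℝ)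
      = ((C.biUnion (fun c => (F.filter (fun a => φ a = c)) ×ˢ
          (F.filter (fun a => φ a = c)))).card : ℝ) := by
    rw [Finset.card_biUnion]
    · push_cast
      rfl
    · intro c _ c' _ hcc
      rw [Function.onFun, Finset.disjoint_left]
      rintro ⟨a, b⟩ h h'
      simp only [Finset.mem_product, Finset.mem_filter] at h h'
      exact hcc (h.1.2.symm.trans h'.1.2)
  rw [h4]
  have h5 : (C.biUnion (fun c => (F.filter (fun a => φ a = c)) ×ˢ
      (F.filter (fun a => φ a = c)))) ⊆ (F ×ˢ F).filter (fun p => p.1 - p.2 ∈ D) := by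
    rintro ⟨a, b⟩ h
    rw [Finset.mem_biUnion] at h
    obtain ⟨c, _, h⟩ := h
    simp only [Finset.mem_product, Finset.mem_filter] at h ⊢
    exact ⟨⟨h.1.1, h.2.1⟩, hD a h.1.1 b h.2.1 (h.1.2.trans h.2.2.symm)⟩
  exact_mod_cast Finset.card_le_card h5

end Pool.Agent.R448
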