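import Mathlib
import Pool.Agent.R448.Core

/-!
# Counting integers `d` with `d α` close to an integer, and arcs visited by `α A`
-/

set_option autoImplicit false

open Finset

namespace Pool.Agent.R448

/-- a good rational approximation with a large denominator -/
theorem exists_rat (α : ℝ) (m : ℕ) (h : ∀ d : ℕ, 0 < d → d < m → ∀ z : ℤ, (d : ℝ) * α ≠ z) :
    ∃ ξ : ℚ, m ≤ ξ.den ∧ |α - ξ| < 1 / (ξ.den : ℝ) ^ 2 := by
  by_cases hα : Irrational α
  · by_contra hcon
    push Not at hcon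
    have hinf := Real.infinite_rat_abs_sub_lt_one_div_den_sq_of_irrational hα
    apply hinf
    -- bounded denominators: finitely many rationals
    set f : ℚ → ℤ × ℕ := fun ξ => (ξ.num, ξ.den) with hf
    have hfin : ((Finset.Icc (-(⌈(m : ℝ) * (|α| + 1)⌉)) (⌈(m : ℝ) * (|α| + 1)⌉) ×ˢ
        Finset.range (m + 1) : Finset (ℤ × ℕ)) : Set (ℤ × ℕ)).Finite := Finset.finite_toSet _
    refine Set.Finite.subset (hfin.preimage (f := f) ?_) ?_
    · intro a _ b _ hab
      simp only [hf, Prod.mk.injEq] at hab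
      exact Rat.ext hab.1 hab.2
    · intro ξ hξ
      have hξ' : |α - ξ| < 1 / (ξ.den : ℝ) ^ 2 := hξ
      have hden : ξ.den < m := by
        by_contra hcon2
        push Not at hcon2
        exact absurd hξ' (not_lt.2 (hcon ξ hcon2))
      have hd0 : (0 : ℝ) < ξ.den := by exact_mod_cast ξ.den_pos
      have hd1 : (1 : ℝ) ≤ ξ.den := by exact_mod_cast ξ.den_pos
      have h1 : |(ξ : ℝ)| ≤ |α| + 1 := by
        have h2 : |(ξ : ℝ)| ≤ |α| + |α - ξ| := by
          have := abs_sub_abs_le_abs_sub (ξ : ℝ) α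
          rw [abs_sub_comm] at this
          linarith
        have h3 : 1 / (ξ.den : ℝ) ^ 2 ≤ 1 := by
          rw [div_le_one (by positivity)]
          nlinarith
        linarith
      have h2 : |(ξ.num : ℝ)| ≤ m * (|α| + 1) := by
        have h3 : (ξ.num : ℝ) = ξ * ξ.den := by
          exact_mod_cast (Rat.mul_den_eq_num ξ).symm
        rw [h3, abs_mul, abs_of_pos hd0]
        have h4 : (ξ.den : ℝ) ≤ m := by exact_mod_cast hden.le
        calc |(ξ : ℝ)| * ξ.den ≤ (|α| + 1) * m := mul_le_mul h1 h4 hd0.le (by positivity)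
          _ = _ := by ring
      have h5 : (⌈(m : ℝ) * (|α| + 1)⌉ : ℝ) ≥ m * (|α| + 1) := Int.le_ceil _
      have h6 := abs_le.1 h2
      simp only [hf, Set.mem_preimage, Finset.coe_product, Set.mem_prod, Finset.mem_coe,
        Finset.mem_Icc, Finset.mem_range]
      refine ⟨⟨?_, ?_⟩, by omega⟩
      · have : (-(⌈(m : ℝ) * (|α| + 1)⌉) : ℝ) ≤ ξ.num := by linarith [h6.1]
        exact_mod_cast this
      · have : (ξ.num : ℝ) ≤ (⌈(m : ℝ) * (|α| + 1)⌉ : ℝ) := by linarith [h6.2]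
        exact_mod_cast this
  · rw [irrational_iff_ne_rational] at hα
    push Not at hα
    obtain ⟨a, b, hb, hab⟩ := hα
    have hξ : α = (((a : ℚ) / b : ℚ) : ℝ) := by
      rw [hab]
      push_cast
      rfl
    refine ⟨(a : ℚ) / b, ?_, ?_⟩
    · by_contra hcon
      push Not at hcon
      apply h _ ((a : ℚ) / b).den_pos hcon ((a : ℚ) / b).num
      rw [hξ]
      have := Rat.mul_den_eq_num ((a : ℚ) / b)
      rw [mul_comm]
      exact_mod_cast this
    · rw [hξ, sub_self, abs_zero]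
      have : (0 : ℝ) < ((a : ℚ) / b : ℚ).den := by exact_mod_cast ((a : ℚ) / b).den_pos
      positivity

/-- the integers in an open interval of length `2 r` -/
theorem card_near (S : Finset ℤ) (c r : ℝ) (hr : 0 ≤ r) (hS : ∀ t ∈ S, |(t : ℝ) - c| < r) :
    (S.card : ℝ) ≤ 2 * r + 1 := by
  have h1 : S ⊆ Finset.Icc ⌈c - r⌉ ⌊c + r⌋ := by
    intro t ht
    have := abs_lt.1 (hS t ht)
    rw [Finset.mem_Icc, Int.ceil_le, Int.le_floor]
    constructor <;> linarith [this.1, this.2]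
  have h2 := Finset.card_le_card h1
  rw [Int.card_Icc] at h2
  have h3 : ((⌊c + r⌋ + 1 - ⌈c - r⌉).toNat : ℝ) ≤ 2 * r + 1 := by
    rcases le_or_gt 0 (⌊c + r⌋ + 1 - ⌈c - r⌉) with h | h
    · have h4 : (((⌊c + r⌋ + 1 - ⌈c - r⌉).toNat : ℤ) : ℝ) = ((⌊c + r⌋ + 1 - ⌈c - r⌉ : ℤ) : ℝ) := by
        rw [Int.toNat_of_nonneg h]
      have h5 : ((⌊c + r⌋ + 1 - ⌈c - r⌉).toNat : ℝ) = ((⌊c + r⌋ + 1 - ⌈c - r⌉ : ℤ) : ℝ) := by
        exact_mod_cast h4
      rw [h5]
      push_cast
      have h6 := Int.floor_le (c + r)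
      have h7 := Int.le_ceil (c - r)
      linarith
    · rw [Int.toNat_of_nonpos h.le]
      push_cast
      linarith
  have h4 : (S.card : ℝ) ≤ ((⌊c + r⌋ + 1 - ⌈c - r⌉).toNat : ℝ) := by exact_mod_cast h2
  linarith

/-- the integers `|d| ≤ N` with `d α` at distance less than `1 / m` from the nearest integer -/
noncomputable def nearSet (α : ℝ) (m N : ℕ) : Finset ℤ := by
  classical
  exact (Finset.Icc (-(N : ℤ)) N).filter (fun d => ∃ z : ℤ, |(d : ℝ) * α - z| < 1 / m)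

theorem mem_nearSet {α : ℝ} {m N : ℕ} {d : ℤ} :
    d ∈ nearSet α m N ↔ (-(N : ℤ) ≤ d ∧ d ≤ N) ∧ ∃ z : ℤ, |(d : ℝ) * α - z| < 1 / m := by
  classical
  unfold nearSet
  rw [Finset.mem_filter, Finset.mem_Icc]

/-- one window of length `q` -/
theorem window (α : ℝ) (m : ℕ) (hm : 0 < m) (ξ : ℚ) (hden : m ≤ ξ.den)
    (hξ : |α - ξ| < 1 / (ξ.den : ℝ) ^ 2) (S : Finset ℤ) (d₀ : ℤ)
    (hS : ∀ d ∈ S, d₀ ≤ d ∧ d < d₀ + ξ.den) (hS2 : ∀ d ∈ S, ∃ z : ℤ, |(d : ℝ) * α - z| < 1 / m) :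
    (S.card : ℝ) ≤ 5 * ξ.den / m := by
  classical
  set q : ℕ := ξ.den with hq
  have hq0 : (0 : ℝ) < q := by exact_mod_cast ξ.den_pos
  have hm0 : (0 : ℝ) < m := by exact_mod_cast hm
  have hmq : (m : ℝ) ≤ q := by exact_mod_cast hden
  choose! z hz using hS2
  -- the map `d ↦ (d - d₀) a - q z_d`
  set T : Finset ℤ := S.image (fun d => (d - d₀) * ξ.num - q * z d) with hT
  have hinj : Set.InjOn (fun d => (d - d₀) * ξ.num - q * z d) (S : Set ℤ) := by
    intro d hd e he hde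
    simp only at hde
    have h1 : (q : ℤ) ∣ (d - e) * ξ.num := ⟨z d - z e, by linarith⟩
    have h2 : IsCoprime (q : ℤ) ξ.num := by
      rw [Int.isCoprime_iff_gcd_eq_one, Int.gcd_comm]
      have := ξ.reduced
      simpa [Int.gcd, hq] using this
    have h3 : (q : ℤ) ∣ d - e := h2.dvd_of_dvd_mul_right h1
    have hd' := hS d hd
    have he' := hS e he
    by_contra hne
    have h4 : d - e ≠ 0 := sub_ne_zero.2 hne
    have h5 := Int.le_of_dvd (abs_pos.2 h4) ((dvd_abs _ _).2 h3)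
    rcases abs_cases (d - e) with ⟨h6, _⟩ | ⟨h6, _⟩ <;> omega
  have hcard : S.card = T.card := (Finset.card_image_of_injOn hinj).symm
  rw [hcard]
  have hbound : (T.card : ℝ) ≤ 2 * (q / m + 1) + 1 := by
    apply card_near T (-(q * (d₀ * α))) _ (by positivity)
    intro t ht
    rw [hT, Finset.mem_image] at ht
    obtain ⟨d, hd, rfl⟩ := ht
    have h1 := hz d hd
    have hd' := hS d hd
    push_cast
    have hnum : (ξ.num : ℝ) = ξ * q := by
      rw [hq]
      exact_mod_cast (Rat.mul_den_eq_num ξ).symm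
    rw [hnum]
    have h2 : ((d : ℝ) - d₀) * (ξ * q) - q * z d - -(q * (d₀ * α)) =
        q * ((d * α - z d) - (d - d₀) * (α - ξ)) := by ring
    rw [h2, abs_mul, abs_of_pos hq0]
    have h3 : |((d : ℝ) - d₀) * (α - ξ)| ≤ 1 / q := by
      rw [abs_mul]
      have h4 : |(d : ℝ) - d₀| ≤ q := by
        rw [abs_le]
        have h5 : (d₀ : ℝ) ≤ d := by exact_mod_cast hd'.1
        have h6 : (d : ℝ) ≤ d₀ + q := by
          have := hd'.2.le
          exact_mod_cast this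
        constructor <;> linarith
      calc |(d : ℝ) - d₀| * |α - ξ| ≤ q * (1 / (q : ℝ) ^ 2) :=
            mul_le_mul h4 hξ.le (abs_nonneg _) hq0.le
        _ = 1 / q := by field_simp
    have h4 : |((d : ℝ) * α - z d) - (d - d₀) * (α - ξ)| < 1 / m + 1 / q := by
      calc |((d : ℝ) * α - z d) - (d - d₀) * (α - ξ)|
          ≤ |(d : ℝ) * α - z d| + |((d : ℝ) - d₀) * (α - ξ)| := abs_sub _ _
        _ < _ := by linarith
    calc (q : ℝ) * |((d : ℝ) * α - z d) - (d - d₀) * (α - ξ)| < q * (1 / m + 1 / q) :=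
          mul_lt_mul_of_pos_left h4 hq0
      _ = q / m + 1 := by field_simp
  refine hbound.trans ?_
  rw [le_div_iff₀ hm0]
  have : (2 * ((q : ℝ) / m + 1) + 1) * m = 2 * q + 3 * m := by field_simp; ring
  rw [this]
  linarith

/-- the number of `|d| ≤ N` with `d α` near an integer -/
theorem card_nearSet (α : ℝ) (m : ℕ) (hm : 0 < m)
    (h : ∀ d : ℕ, 0 < d → d < m → ∀ z : ℤ, (d : ℝ) * α ≠ z) :
    ∃ N₀ : ℕ, 0 < N₀ ∧ ∀ N : ℕ, N₀ ≤ N → ((nearSet α m N).card : ℝ) ≤ 20 * N / m := by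
  classical
  obtain ⟨ξ, hden, hξ⟩ := exists_rat α m h
  refine ⟨ξ.den, ξ.den_pos, fun N hN => ?_⟩
  set q : ℕ := ξ.den with hq
  have hq0 : (0 : ℝ) < q := by exact_mod_cast ξ.den_pos
  have hqp : 0 < q := ξ.den_pos
  have hm0 : (0 : ℝ) < m := by exact_mod_cast hm
  set S := nearSet α m N with hS
  set g : ℤ → ℤ := fun d => (d + N) / q with hg
  -- number of windows
  have h1 : (S.image g) ⊆ Finset.Icc 0 ((2 * N : ℤ) / q) := by
    intro w hw
    obtain ⟨d, hd, rfl⟩ := Finset.mem_image.1 hw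
    rw [hS, mem_nearSet] at hd
    rw [Finset.mem_Icc]
    have hqz : (0 : ℤ) < q := by exact_mod_cast hqp
    constructor
    · exact Int.ediv_nonneg (by linarith [hd.1.1]) hqz.le
    · exact Int.ediv_le_ediv hqz (by linarith [hd.1.2])
  have h2 : ((S.image g).card : ℝ) ≤ 2 * N / q + 1 := by
    have h3 := Finset.card_le_card h1
    rw [Int.card_Icc] at h3
    have h4 : (((2 * N : ℤ) / q + 1 - 0).toNat : ℝ) = (((2 * N : ℤ) / q : ℤ) : ℝ) + 1 := by
      have h5 : (0 : ℤ) ≤ (2 * N : ℤ) / q + 1 - 0 := by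
        have : (0 : ℤ) ≤ (2 * N : ℤ) / q := Int.ediv_nonneg (by positivity) (by positivity)
        linarith
      have h6 : ((((2 * N : ℤ) / q + 1 - 0).toNat : ℤ) : ℝ) =
          (((2 * N : ℤ) / q + 1 - 0 : ℤ) : ℝ) := by
        rw [Int.toNat_of_nonneg h5]
      have h7 : (((2 * N : ℤ) / q + 1 - 0).toNat : ℝ) = (((2 * N : ℤ) / q + 1 - 0 : ℤ) : ℝ) := by
        exact_mod_cast h6
      rw [h7]
      push_cast
      ring
    have h5 : (((2 * N : ℤ) / q : ℤ) : ℝ) ≤ 2 * N / q := by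
      have h6 : ((2 * N : ℤ) / q) * q ≤ 2 * N := Int.ediv_mul_le _ (by exact_mod_cast hqp.ne')
      rw [le_div_iff₀ hq0]
      exact_mod_cast h6
    have h6 : ((S.image g).card : ℝ) ≤ (((2 * N : ℤ) / q + 1 - 0).toNat : ℝ) := by
      exact_mod_cast h3
    linarith
  -- each window
  have h3 : ∀ w ∈ S.image g, ((S.filter (fun d => g d = w)).card : ℝ) ≤ 5 * q / m := by
    intro w _
    apply window α m hm ξ hden hξ _ (w * q - N)
    · intro d hd
      rw [Finset.mem_filter] at hd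
      have hw : (d + N) / q = w := hd.2
      have hqz : (0 : ℤ) < q := by exact_mod_cast hqp
      have h4 : w * q ≤ d + N := by
        rw [← hw]
        exact Int.ediv_mul_le _ hqz.ne'
      have h5 : d + N < w * q + q := by
        have h6 := Int.lt_ediv_add_one_mul_self (d + N) hqz
        rw [hw] at h6
        linarith
      constructor <;> linarith
    · intro d hd
      rw [Finset.mem_filter, hS, mem_nearSet] at hd
      exact hd.1.2
  have h4 : (S.card : ℝ) = ∑ w ∈ S.image g, ((S.filter (fun d => g d = w)).card : ℝ) := by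
    have := Finset.card_eq_sum_card_image g S
    rw [this]
    push_cast
    rfl
  rw [h4]
  calc ∑ w ∈ S.image g, ((S.filter (fun d => g d = w)).card : ℝ)
      ≤ ∑ w ∈ S.image g, 5 * (q : ℝ) / m := Finset.sum_le_sum h3
    _ = ((S.image g).card : ℝ) * (5 * q / m) := by rw [Finset.sum_const, nsmul_eq_mul]
    _ ≤ (2 * N / q + 1) * (5 * q / m) := mul_le_mul_of_nonneg_right h2 (by positivity)
    _ = (10 * N + 5 * q) / m := by field_simp; ring
    _ ≤ 20 * N / m := by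
        have h5 : (q : ℝ) ≤ N := by exact_mod_cast hN
        gcongr
        linarith

/-- the number of arcs `[i / m, (i + 1) / m)` modulo one visited by the numbers `a α`, `a ∈ A` -/
noncomputable def arcs (A : Set ℕ) (α : ℝ) (m : ℕ) : ℕ :=
  {i : ℕ | i < m ∧ ∃ a ∈ A, (i : ℝ) / m ≤ Int.fract (a * α) ∧
    Int.fract (a * α) < (i + 1) / m}.ncard

/-- the index of the arc of `a α` -/
noncomputable def idx (α : ℝ) (m : ℕ) (a : ℤ) : ℕ := ⌊Int.fract ((a : ℝ) * α) * m⌋₊

theorem idx_spec (α : ℝ) (m : ℕ) (hm : 0 < m) (a : ℤ) :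
    idx α m a < m ∧ (idx α m a : ℝ) / m ≤ Int.fract (a * α) ∧
      Int.fract (a * α) < ((idx α m a : ℝ) + 1) / m := by
  have hm0 : (0 : ℝ) < m := by exact_mod_cast hm
  have h0 := Int.fract_nonneg ((a : ℝ) * α)
  have h1 := Int.fract_lt_one ((a : ℝ) * α)
  have h2 : (0 : ℝ) ≤ Int.fract ((a : ℝ) * α) * m := by positivity
  refine ⟨?_, ?_, ?_⟩
  · rw [idx, Nat.floor_lt h2]
    nlinarith
  · rw [div_le_iff₀ hm0]
    exact Nat.floor_le h2
  · rw [lt_div_iff₀ hm0]
    exact Nat.lt_floor_add_one _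

/-- the cells of a finite part of `A` -/
theorem card_idx_le (A : Set ℕ) (α : ℝ) (m : ℕ) (hm : 0 < m) (F : Finset ℤ)
    (hF : ∀ a ∈ F, ∃ b ∈ A, ((b : ℕ) : ℤ) = a) :
    (F.image (idx α m)).card ≤ arcs A α m := by
  classical
  rw [arcs, ← Set.ncard_coe_finset]
  apply Set.ncard_le_ncard
  · intro i hi
    rw [Finset.mem_coe, Finset.mem_image] at hi
    obtain ⟨a, ha, rfl⟩ := hi
    obtain ⟨b, hb, rfl⟩ := hF a ha
    have h := idx_spec α m hm b
    refine ⟨h.1, b, hb, ?_, ?_⟩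
    · exact_mod_cast h.2.1
    · exact_mod_cast h.2.2
  · exact (Set.finite_Iio m).subset fun i hi => hi.1

/-- two elements in the same arc -/
theorem same_arc (α : ℝ) (m N : ℕ) (hm : 0 < m) (a b : ℤ) (ha : 0 ≤ a ∧ a ≤ N)
    (hb : 0 ≤ b ∧ b ≤ N) (h : idx α m a = idx α m b) : a - b ∈ nearSet α m N := by
  rw [mem_nearSet]
  refine ⟨⟨by linarith [ha.1, hb.2], by linarith [ha.2, hb.1]⟩,
    ⌊(a : ℝ) * α⌋ - ⌊(b : ℝ) * α⌋, ?_⟩
  have h1 := idx_spec α m hm a
  have h2 := idx_spec α m hm b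
  rw [h] at h1
  have h3 : ((a - b : ℤ) : ℝ) * α - ((⌊(a : ℝ) * α⌋ - ⌊(b : ℝ) * α⌋ : ℤ) : ℝ) =
      Int.fract ((a : ℝ) * α) - Int.fract ((b : ℝ) * α) := by
    rw [Int.fract, Int.fract]
    push_cast
    ring
  rw [h3, abs_lt]
  have h4 : ((idx α m b : ℝ) + 1) / m = (idx α m b : ℝ) / m + 1 / m := by ring
  rw [h4] at h1 h2
  constructor <;> linarith [h1.2.1, h1.2.2, h2.2.1, h2.2.2]

end Pool.Agent.R448
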