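import Mathlib
import Pool.Agent.R448.Arc
import Pool.Agent.TH314.ET.Hyp

/-!
# Economical coverings and arcs: consequences for representation functions
-/

set_option autoImplicit false

open Finset Filter Topology Pointwise

namespace Pool.Agent.R448

open Pool.Agent.TH314.ET (rep IsBasis QuadGrowth Thick basis_lower growth_lower)

open Classical in
/-- the elements of `A` in `[0, N]`, as integers -/
noncomputable def truncZ (A : Set ℕ) (N : ℕ) : Finset ℤ :=
  ((Finset.range (N + 1)).filter (· ∈ A)).map ⟨fun n : ℕ => (n : ℤ), Int.ofNat_injective⟩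

theorem mem_truncZ {A : Set ℕ} {N : ℕ} {a : ℤ} :
    a ∈ truncZ A N ↔ ∃ b ∈ A, b ≤ N ∧ (b : ℤ) = a := by
  classical
  unfold truncZ
  simp only [Finset.mem_map, Finset.mem_filter, Finset.mem_range, Function.Embedding.coeFn_mk]
  constructor
  · rintro ⟨b, ⟨h1, h2⟩, h3⟩
    exact ⟨b, h2, by omega, h3⟩
  · rintro ⟨b, h1, h2, h3⟩
    exact ⟨b, ⟨by omega, h1⟩, h3⟩

theorem card_truncZ (A : Set ℕ) (N : ℕ) : (truncZ A N).card = (A ∩ Set.Icc 0 N).ncard := by
  classical
  unfold truncZ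
  rw [Finset.card_map, ← Set.ncard_coe_finset]
  congr 1
  ext a
  simp only [Finset.coe_filter, Finset.mem_range, Set.mem_ofPred_eq, Set.mem_inter_iff, Set.mem_Icc]
  constructor
  · rintro ⟨h1, h2⟩
    exact ⟨h2, by omega, by omega⟩
  · rintro ⟨h1, _, h2⟩
    exact ⟨by omega, h1⟩

theorem rZ_eq (A : Set ℕ) (N : ℕ) (n : ℤ) : ∃ m : ℕ, rZ (truncZ A N) n ≤ rep A m ∧
    (0 < rZ (truncZ A N) n → (m : ℤ) = n ∧ m ≤ 2 * N) := by
  classical
  rcases Nat.eq_zero_or_pos (rZ (truncZ A N) n) with h0 | h0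
  · exact ⟨0, by rw [h0]; exact Nat.zero_le _, fun h => absurd h (by omega)⟩
  · have h1 : 0 < rZ (truncZ A N) n := h0
    rw [rZ, Finset.card_pos] at h1
    obtain ⟨⟨a, b⟩, hab⟩ := h1
    simp only [Finset.mem_filter, Finset.mem_product] at hab
    obtain ⟨⟨ha, hb⟩, hab⟩ := hab
    obtain ⟨a', _, ha2, rfl⟩ := mem_truncZ.1 ha
    obtain ⟨b', _, hb2, rfl⟩ := mem_truncZ.1 hb
    refine ⟨a' + b', ?_, fun _ => ⟨by push_cast; exact hab, by omega⟩⟩
    rw [rZ, rep]
    have hfin : {p : ℕ × ℕ | p.1 ∈ A ∧ p.2 ∈ A ∧ p.1 + p.2 = a' + b'}.Finite := by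
      refine ((Set.finite_Iic (a' + b')).prod (Set.finite_Iic (a' + b'))).subset ?_
      rintro ⟨x, y⟩ ⟨_, _, h⟩
      simp only [Set.mem_prod, Set.mem_Iic] at h ⊢
      omega
    rw [← Set.ncard_coe_finset]
    have hmap : ((((truncZ A N) ×ˢ (truncZ A N)).filter (fun p => p.1 + p.2 = n) :
        Finset (ℤ × ℤ)) : Set (ℤ × ℤ)) ⊆
        (fun p : ℕ × ℕ => ((p.1 : ℤ), (p.2 : ℤ))) ''
          {p : ℕ × ℕ | p.1 ∈ A ∧ p.2 ∈ A ∧ p.1 + p.2 = a' + b'} := by
      rintro ⟨x, y⟩ hxy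
      rw [Finset.mem_coe, Finset.mem_filter, Finset.mem_product] at hxy
      obtain ⟨⟨hx, hy⟩, hxy⟩ := hxy
      obtain ⟨x', hx1, _, hx3⟩ := mem_truncZ.1 hx
      obtain ⟨y', hy1, _, hy3⟩ := mem_truncZ.1 hy
      simp only at hx3 hy3 hxy
      refine ⟨(x', y'), ⟨hx1, hy1, ?_⟩, by simp [hx3, hy3]⟩
      have : (x' : ℤ) + y' = a' + b' := by rw [hx3, hy3, hxy, hab]
      exact_mod_cast this
    exact (Set.ncard_le_ncard hmap (hfin.image _)).trans (Set.ncard_image_le hfin)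

/-- the hypotheses on a family of coverings -/
def Covers (A : Set ℕ) (N : ℕ) (q : ℝ) (k : ℕ) (X B : ℕ → Finset ℤ) : Prop :=
  (∀ j < k, ∀ a ∈ A, a ≤ N → (a : ℤ) ∈ X j + B j) ∧
  (∀ j, j + 1 < k → q * ((B j - B j).card : ℝ) ≤ ((B (j + 1) - B (j + 1)).card : ℝ))

theorem one_add_div {q : ℝ} (hq : 1 < q) :
    (1 + (Real.sqrt q)⁻¹) / (1 - (Real.sqrt q)⁻¹) = (Real.sqrt q + 1) / (Real.sqrt q - 1) := by
  have h1 : 1 < Real.sqrt q := by
    rw [show (1 : ℝ) = Real.sqrt 1 by simp]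
    exact Real.sqrt_lt_sqrt (by norm_num) hq
  have h0 : Real.sqrt q ≠ 0 := by positivity
  have h2 : Real.sqrt q - 1 ≠ 0 := by linarith
  have h3 : 1 - (Real.sqrt q)⁻¹ ≠ 0 := by
    have : (Real.sqrt q)⁻¹ < 1 := inv_lt_one_of_one_lt₀ h1
    linarith
  rw [div_eq_div_iff h3 h2]
  field_simp

/-- lacunary sequences satisfy the separation condition of `main` -/
theorem lac_min {q : ℝ} (hq : 1 < q) (k : ℕ) (w : ℕ → ℝ) (hw : ∀ j < k, 0 < w j)
    (hlac : ∀ j, j + 1 < k → q * w j ≤ w (j + 1)) :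
    ∀ i < k, ∀ j < k, min (Real.sqrt (w i) ^ 2) (Real.sqrt (w j) ^ 2) ≤
      (Real.sqrt q)⁻¹ ^ ((i - j) + (j - i)) * (Real.sqrt (w i) * Real.sqrt (w j)) := by
  have hq0 : 0 < q := by linarith
  have hsq : 0 < Real.sqrt q := Real.sqrt_pos.2 hq0
  have key : ∀ i < k, ∀ l, i + l < k → Real.sqrt (w i) ^ 2 ≤
      (Real.sqrt q)⁻¹ ^ l * (Real.sqrt (w i) * Real.sqrt (w (i + l))) := by
    intro i hi l hl
    have h1 : ∀ l, i + l < k → q ^ l * w i ≤ w (i + l) := by
      intro l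
      induction l with
      | zero => intro _; simp
      | succ l ih =>
        intro hl
        have h2 := ih (by omega)
        have h3 := hlac (i + l) (by omega)
        calc q ^ (l + 1) * w i = q * (q ^ l * w i) := by ring
          _ ≤ q * w (i + l) := mul_le_mul_of_nonneg_left h2 hq0.le
          _ ≤ _ := h3
    have h2 := Real.sqrt_le_sqrt (h1 l hl)
    rw [Real.sqrt_mul (by positivity)] at h2
    have h3 : Real.sqrt (q ^ l) = Real.sqrt q ^ l := by
      rw [Real.sqrt_eq_rpow, Real.sqrt_eq_rpow, ← Real.rpow_natCast, ← Real.rpow_mul hq0.le,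
        mul_comm, Real.rpow_mul hq0.le, Real.rpow_natCast]
    rw [h3] at h2
    have h4 : Real.sqrt (w i) ≤ (Real.sqrt q)⁻¹ ^ l * Real.sqrt (w (i + l)) := by
      rw [inv_pow, inv_mul_eq_div, le_div_iff₀ (by positivity)]
      linarith
    calc Real.sqrt (w i) ^ 2 = Real.sqrt (w i) * Real.sqrt (w i) := sq _
      _ ≤ Real.sqrt (w i) * ((Real.sqrt q)⁻¹ ^ l * Real.sqrt (w (i + l))) :=
          mul_le_mul_of_nonneg_left h4 (Real.sqrt_nonneg _)
      _ = _ := by ring
  intro i hi j hj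
  rcases le_total i j with h | h
  · obtain ⟨l, rfl⟩ := Nat.exists_eq_add_of_le h
    refine (min_le_left _ _).trans ?_
    have := key i hi l hj
    have h5 : (i - (i + l)) + ((i + l) - i) = l := by omega
    rw [h5]
    exact this
  · obtain ⟨l, rfl⟩ := Nat.exists_eq_add_of_le h
    refine (min_le_right _ _).trans ?_
    have := key j hj l hi
    have h5 : ((j + l) - j) + (j - (j + l)) = l := by omega
    rw [h5]
    calc Real.sqrt (w j) ^ 2 ≤ _ := this
      _ = _ := by ring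

/-- **Superadditivity over scales**, for a set of natural numbers. -/
theorem covers_main (A : Set ℕ) (N : ℕ) (q : ℝ) (hq : 1 < q) (k : ℕ) (X B : ℕ → Finset ℤ)
    (h : Covers A N q k X B) :
    ∃ n ≤ 2 * N, ((A ∩ Set.Icc 0 N).ncard : ℝ) ^ 2 *
      ∑ j ∈ range k, 1 / (((X j).card : ℝ) ^ 2 * (B j - B j).card) ≤
        (Real.sqrt q + 1) / (Real.sqrt q - 1) * rep A n := by
  classical
  have hsq1 : 1 < Real.sqrt q := by
    rw [show (1 : ℝ) = Real.sqrt 1 by simp]
    exact Real.sqrt_lt_sqrt (by norm_num) hq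
  have hC0 : 0 < (Real.sqrt q + 1) / (Real.sqrt q - 1) := by
    apply div_pos <;> linarith
  set F := truncZ A N with hF
  rw [← card_truncZ, ← hF]
  rcases F.eq_empty_or_nonempty with h0 | h0
  · refine ⟨0, by omega, ?_⟩
    rw [h0]
    simp only [Finset.card_empty, Nat.cast_zero, ne_eq, OfNat.ofNat_ne_zero, not_false_eq_true,
      zero_pow, zero_mul]
    positivity
  -- the largest value
  obtain ⟨n, hn, hmax⟩ := Finset.exists_max_image (F + F) (rZ F) (h0.add h0)
  have hmax' : ∀ n', rZ F n' ≤ rZ F n := by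
    intro n'
    by_cases hn' : n' ∈ F + F
    · exact hmax n' hn'
    · have : rZ F n' = 0 := by
        rw [rZ, Finset.card_eq_zero, Finset.filter_eq_empty_iff]
        rintro ⟨a, b⟩ hab heq
        rw [Finset.mem_product] at hab
        exact hn' (Finset.mem_add.2 ⟨a, hab.1, b, hab.2, heq⟩)
      omega
  have hpos : 0 < rZ F n := by
    obtain ⟨a, ha, b, hb, hab⟩ := Finset.mem_add.1 hn
    rw [rZ, Finset.card_pos]
    exact ⟨(a, b), Finset.mem_filter.2 ⟨Finset.mem_product.2 ⟨ha, hb⟩, hab⟩⟩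
  obtain ⟨m, hm1, hm2⟩ := rZ_eq A N n
  obtain ⟨_, hm3⟩ := hm2 hpos
  refine ⟨m, hm3, ?_⟩
  obtain ⟨a₀, ha₀⟩ := h0
  have hcov : ∀ j < k, ∀ a ∈ F, ∃ x ∈ X j, ∃ b ∈ B j, x + b = a := by
    intro j hj a ha
    obtain ⟨b, hb1, hb2, rfl⟩ := mem_truncZ.1 ha
    exact Finset.mem_add.1 (h.1 j hj b hb1 hb2)
  have hX0 : ∀ j < k, 0 < (X j).card := by
    intro j hj
    obtain ⟨x, hx, _⟩ := hcov j hj a₀ ha₀
    exact Finset.card_pos.2 ⟨x, hx⟩
  have hB0 : ∀ j < k, 0 < (B j - B j).card := by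
    intro j hj
    obtain ⟨_, _, b, hb, _⟩ := hcov j hj a₀ ha₀
    exact Finset.card_pos.2 ⟨b - b, Finset.sub_mem_sub hb hb⟩
  have hmain := main F ⟨a₀, ha₀⟩ (rZ F n) hmax' k (fun j => B j - B j) (fun j => (X j).card)
    (fun j => Real.sqrt ((B j - B j).card)) (Real.sqrt q)⁻¹ (by positivity)
    (inv_lt_one_of_one_lt₀ hsq1) (fun j hj => by exact_mod_cast hX0 j hj)
    (fun j hj => Real.sqrt_pos.2 (by exact_mod_cast hB0 j hj))
    (by
      intro j hj
      rw [div_le_iff₀ (by exact_mod_cast hX0 j hj), mul_comm]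
      -- choose the translates
      have hc : ∀ a : ℤ, ∃ x : ℤ, a ∈ F → x ∈ X j ∧ ∃ b ∈ B j, x + b = a := by
        intro a
        by_cases ha : a ∈ F
        · obtain ⟨x, hx, hb⟩ := hcov j hj a ha
          exact ⟨x, fun _ => ⟨hx, hb⟩⟩
        · exact ⟨0, fun h => absurd h ha⟩
      choose φ hφ using hc
      refine pairs_in_cells F φ (X j) (fun a ha => (hφ a ha).1) (B j - B j) ?_
      intro a ha b hb hab
      obtain ⟨_, c, hc, hc2⟩ := hφ a ha
      obtain ⟨_, d, hd, hd2⟩ := hφ b hb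
      have : a - b = c - d := by rw [← hc2, ← hd2, hab]; ring
      rw [this]
      exact Finset.sub_mem_sub hc hd)
    (fun j hj => by rw [Real.sq_sqrt (Nat.cast_nonneg _)])
    (lac_min hq k (fun j => ((B j - B j).card : ℝ)) (fun j hj => by exact_mod_cast hB0 j hj) h.2)
  rw [one_add_div hq] at hmain
  have h3 : ∑ j ∈ range k, 1 / (((X j).card : ℝ) * Real.sqrt ((B j - B j).card)) ^ 2 =
      ∑ j ∈ range k, 1 / (((X j).card : ℝ) ^ 2 * (B j - B j).card) := by
    apply Finset.sum_congr rfl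
    intro j _
    rw [mul_pow, Real.sq_sqrt (Nat.cast_nonneg _)]
  rw [h3] at hmain
  refine hmain.trans ?_
  rw [mul_comm]
  apply mul_le_mul_of_nonneg_left _ hC0.le
  exact_mod_cast hm1

theorem ncard_icc_zero (A : Set ℕ) (N : ℕ) :
    (A ∩ Set.Icc 1 N).ncard ≤ (A ∩ Set.Icc 0 N).ncard := by
  apply Set.ncard_le_ncard _ ((Set.finite_Icc 0 N).subset Set.inter_subset_right)
  intro a ha
  exact ⟨ha.1, Nat.zero_le _, ha.2.2⟩

/-- lower bound for the counting function under the hypotheses of the two questions -/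
theorem lower (A : Set ℕ) (hA : IsBasis A ∨ QuadGrowth A) : ∃ c : ℝ, 0 < c ∧
    ∀ᶠ N : ℕ in atTop, c * Real.sqrt N ≤ ((A ∩ Set.Icc 1 N).ncard : ℝ) := by
  rcases hA with h | h
  · exact ⟨1 / 3, by norm_num, basis_lower A h⟩
  · exact growth_lower A h

/-- **The Erdős–Turán conjecture for sets with economical coverings at many scales.** -/
theorem covers_ET (A : Set ℕ) (hA : IsBasis A ∨ QuadGrowth A) (q : ℝ) (hq : 1 < q)
    (h : ∀ T : ℝ, ∃ᶠ N : ℕ in atTop, ∃ (k : ℕ) (X B : ℕ → Finset ℤ), Covers A N q k X B ∧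
      T ≤ ∑ j ∈ range k, (N : ℝ) / (((X j).card : ℝ) ^ 2 * (B j - B j).card)) :
    ∀ K : ℕ, ∃ n, K < rep A n := by
  intro K
  by_contra hcon
  push Not at hcon
  obtain ⟨c, hc, hlow⟩ := lower A hA
  have hsq1 : 1 < Real.sqrt q := by
    rw [show (1 : ℝ) = Real.sqrt 1 by simp]
    exact Real.sqrt_lt_sqrt (by norm_num) hq
  set C : ℝ := (Real.sqrt q + 1) / (Real.sqrt q - 1) with hC
  have hC0 : 0 < C := by
    rw [hC]
    apply div_pos <;> linarith
  obtain ⟨N, ⟨k, X, B, hcov, hT⟩, hN1, hN2⟩ :=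
    ((h (C * K / c ^ 2 + 1)).and_eventually (hlow.and (eventually_ge_atTop 1))).exists
  obtain ⟨n, _, hn⟩ := covers_main A N q hq k X B hcov
  rw [← hC] at hn
  have hN0 : (0 : ℝ) < N := by exact_mod_cast hN2
  have h1 : c * Real.sqrt N ≤ ((A ∩ Set.Icc 0 N).ncard : ℝ) :=
    hN1.trans (by exact_mod_cast ncard_icc_zero A N)
  have h2 : c ^ 2 * N ≤ ((A ∩ Set.Icc 0 N).ncard : ℝ) ^ 2 := by
    have := pow_le_pow_left₀ (by positivity) h1 2
    rwa [mul_pow, Real.sq_sqrt hN0.le] at this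
  have h3 : ∑ j ∈ range k, (N : ℝ) / (((X j).card : ℝ) ^ 2 * (B j - B j).card) =
      N * ∑ j ∈ range k, 1 / (((X j).card : ℝ) ^ 2 * (B j - B j).card) := by
    rw [Finset.mul_sum]
    apply Finset.sum_congr rfl
    intro j _
    ring
  rw [h3] at hT
  set S : ℝ := ∑ j ∈ range k, 1 / (((X j).card : ℝ) ^ 2 * (B j - B j).card) with hS
  have hS0 : 0 ≤ S := Finset.sum_nonneg fun j _ => by positivity
  have h4 : c ^ 2 * N * S ≤ C * K := by
    calc c ^ 2 * N * S ≤ ((A ∩ Set.Icc 0 N).ncard : ℝ) ^ 2 * S :=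
          mul_le_mul_of_nonneg_right h2 hS0
      _ ≤ C * rep A n := hn
      _ ≤ C * K := by
          apply mul_le_mul_of_nonneg_left _ hC0.le
          exact_mod_cast hcon n
  have h5 : C * K + c ^ 2 ≤ c ^ 2 * (N * S) := by
    have := mul_le_mul_of_nonneg_left hT (sq_nonneg c)
    have h6 : c ^ 2 * (C * K / c ^ 2 + 1) = C * K + c ^ 2 := by field_simp
    linarith
  have h6 : 0 < c ^ 2 := by positivity
  linarith

/-- partial sums of the arc series -/
theorem arcs_partial (A : Set ℕ) (c : ℝ) (hc : 0 < c)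
    (hA : ∃ᶠ N : ℕ in atTop, c * Real.sqrt N ≤ ((A ∩ Set.Icc 1 N).ncard : ℝ))
    (K : ℕ) (hK : ∀ n, rep A n ≤ K) (q : ℝ) (hq : 1 < q) (k : ℕ) (α : ℕ → ℝ) (m : ℕ → ℕ)
    (hm : ∀ j < k, 0 < m j) (hlac : ∀ j, j + 1 < k → q * (m j : ℝ) ≤ m (j + 1))
    (hα : ∀ j < k, ∀ d : ℕ, 0 < d → d < m j → ∀ z : ℤ, (d : ℝ) * α j ≠ z) :
    ∑ j ∈ range k, (m j : ℝ) / (arcs A (α j) (m j) : ℝ) ^ 2 ≤
      20 * K / c ^ 2 * ((Real.sqrt q + 1) / (Real.sqrt q - 1)) := by
  classical
  have hsq1 : 1 < Real.sqrt q := by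
    rw [show (1 : ℝ) = Real.sqrt 1 by simp]
    exact Real.sqrt_lt_sqrt (by norm_num) hq
  -- thresholds
  have hth : ∀ j, ∃ N₀ : ℕ, j < k → 0 < N₀ ∧ ∀ N : ℕ, N₀ ≤ N →
      ((nearSet (α j) (m j) N).card : ℝ) ≤ 20 * N / m j := by
    intro j
    by_cases hj : j < k
    · obtain ⟨N₀, h0, h1⟩ := card_nearSet (α j) (m j) (hm j hj) (hα j hj)
      exact ⟨N₀, fun _ => ⟨h0, h1⟩⟩
    · exact ⟨0, fun h => absurd h hj⟩
  choose N₀ hN₀ using hth
  obtain ⟨N, hN1, hN2⟩ := (hA.and_eventually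
    (eventually_ge_atTop (∑ j ∈ range k, N₀ j + 1))).exists
  have hN0 : (0 : ℝ) < N := by
    have : 0 < N := by omega
    exact_mod_cast this
  have hNj : ∀ j < k, N₀ j ≤ N := by
    intro j hj
    have := Finset.single_le_sum (f := N₀) (fun i _ => Nat.zero_le _) (mem_range.2 hj)
    omega
  set F := truncZ A N with hF
  have hFcard : c * Real.sqrt N ≤ (F.card : ℝ) := by
    rw [hF, card_truncZ]
    exact hN1.trans (by exact_mod_cast ncard_icc_zero A N)
  have hFpos : 0 < (F.card : ℝ) := lt_of_lt_of_le (by positivity) hFcard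
  have hFne : F.Nonempty := Finset.card_pos.1 (by exact_mod_cast hFpos)
  have hKF : ∀ n, rZ F n ≤ K := by
    intro n
    obtain ⟨m', h1, _⟩ := rZ_eq A N n
    exact h1.trans (hK m')
  have hFA : ∀ a ∈ F, ∃ b ∈ A, ((b : ℕ) : ℤ) = a := by
    intro a ha
    obtain ⟨b, hb1, _, hb3⟩ := mem_truncZ.1 ha
    exact ⟨b, hb1, hb3⟩
  have harc : ∀ j < k, 0 < arcs A (α j) (m j) := by
    intro j hj
    refine lt_of_lt_of_le ?_ (card_idx_le A (α j) (m j) (hm j hj) F hFA)
    exact Finset.card_pos.2 (hFne.image _)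
  have hmj : ∀ j < k, (0 : ℝ) < m j := fun j hj => by exact_mod_cast hm j hj
  -- decreasing sizes: use `w j = 20 N / m j`
  have hlac2 : ∀ i < k, ∀ j < k,
      min (Real.sqrt (20 * N / m i) ^ 2) (Real.sqrt (20 * N / m j) ^ 2) ≤
      (Real.sqrt q)⁻¹ ^ ((i - j) + (j - i)) *
        (Real.sqrt (20 * N / m i) * Real.sqrt (20 * N / m j)) := by
    intro i hi j hj
    have hmi := hmj i hi
    have hmj' := hmj j hj
    have h1 := lac_min hq k (fun j => (m j : ℝ)) hmj hlac i hi j hj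
    rw [Real.sq_sqrt hmi.le, Real.sq_sqrt hmj'.le] at h1
    rw [Real.sq_sqrt (by positivity), Real.sq_sqrt (by positivity)]
    have h2 : min (20 * (N : ℝ) / m i) (20 * N / m j) = 20 * N * min (m i : ℝ) (m j) /
        ((m i : ℝ) * m j) := by
      rcases le_total (m i : ℝ) (m j) with h | h
      · rw [min_eq_left h, min_eq_right]
        · field_simp
        · gcongr
      · rw [min_eq_right h, min_eq_left]
        · field_simp
        · gcongr
    have h3 : Real.sqrt (20 * N / m i) * Real.sqrt (20 * N / m j) =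
        20 * N * (Real.sqrt (m i) * Real.sqrt (m j)) / ((m i : ℝ) * m j) := by
      rw [Real.sqrt_div (by positivity), Real.sqrt_div (by positivity)]
      have h4 : Real.sqrt (20 * (N : ℝ)) * Real.sqrt (20 * N) = 20 * N :=
        Real.mul_self_sqrt (by positivity)
      have h5 : Real.sqrt (m i : ℝ) * Real.sqrt (m i) = m i := Real.mul_self_sqrt hmi.le
      have h6 : Real.sqrt (m j : ℝ) * Real.sqrt (m j) = m j := Real.mul_self_sqrt hmj'.le
      have h7 : 0 < Real.sqrt (m i : ℝ) := Real.sqrt_pos.2 hmi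
      have h8 : 0 < Real.sqrt (m j : ℝ) := Real.sqrt_pos.2 hmj'
      rw [div_mul_div_comm, h4, div_eq_div_iff (by positivity) (by positivity)]
      calc 20 * (N : ℝ) * ((m i : ℝ) * m j) = 20 * N * ((Real.sqrt (m i : ℝ) * Real.sqrt (m i)) *
            (Real.sqrt (m j : ℝ) * Real.sqrt (m j))) := by rw [h5, h6]
        _ = _ := by ring
    rw [h2, h3]
    rw [mul_div_assoc', div_le_div_iff_of_pos_right (by positivity)]
    calc 20 * (N : ℝ) * min (m i : ℝ) (m j) ≤ 20 * N * ((Real.sqrt q)⁻¹ ^ ((i - j) + (j - i)) *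
          (Real.sqrt (m i) * Real.sqrt (m j))) := mul_le_mul_of_nonneg_left h1 (by positivity)
      _ = _ := by ring
  have hmain := main F hFne K hKF k (fun j => nearSet (α j) (m j) N)
    (fun j => (arcs A (α j) (m j) : ℝ)) (fun j => Real.sqrt (20 * N / m j))
    (Real.sqrt q)⁻¹ (by positivity) (inv_lt_one_of_one_lt₀ hsq1)
    (fun j hj => by exact_mod_cast harc j hj)
    (fun j hj => Real.sqrt_pos.2 (by have := hmj j hj; positivity))
    (by
      intro j hj
      rw [div_le_iff₀ (by exact_mod_cast harc j hj), mul_comm]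
      have h1 := pairs_in_cells F (idx (α j) (m j)) (F.image (idx (α j) (m j)))
        (fun a ha => Finset.mem_image_of_mem _ ha) (nearSet (α j) (m j) N) (by
          intro a ha b hb hab
          obtain ⟨a', _, ha2, rfl⟩ := mem_truncZ.1 ha
          obtain ⟨b', _, hb2, rfl⟩ := mem_truncZ.1 hb
          exact same_arc (α j) (m j) N (hm j hj) a' b' ⟨by positivity, by exact_mod_cast ha2⟩
            ⟨by positivity, by exact_mod_cast hb2⟩ hab)
      refine h1.trans (mul_le_mul_of_nonneg_right ?_ (Nat.cast_nonneg _))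
      exact_mod_cast card_idx_le A (α j) (m j) (hm j hj) F hFA)
    (by
      intro j hj
      have := hmj j hj
      rw [Real.sq_sqrt (by positivity)]
      exact (hN₀ j hj).2 N (hNj j hj))
    hlac2
  rw [one_add_div hq] at hmain
  have h3 : ∑ j ∈ range k, 1 / ((arcs A (α j) (m j) : ℝ) * Real.sqrt (20 * N / m j)) ^ 2 =
      (∑ j ∈ range k, (m j : ℝ) / (arcs A (α j) (m j) : ℝ) ^ 2) / (20 * N) := by
    rw [Finset.sum_div]
    apply Finset.sum_congr rfl
    intro j hj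
    have h4 := hmj j (mem_range.1 hj)
    have h5 : (0 : ℝ) < arcs A (α j) (m j) := by exact_mod_cast harc j (mem_range.1 hj)
    rw [mul_pow, Real.sq_sqrt (by positivity)]
    field_simp
  rw [h3] at hmain
  set S : ℝ := ∑ j ∈ range k, (m j : ℝ) / (arcs A (α j) (m j) : ℝ) ^ 2 with hS
  have hS0 : 0 ≤ S := Finset.sum_nonneg fun j _ => by positivity
  have h2 : c ^ 2 * N ≤ (F.card : ℝ) ^ 2 := by
    have := pow_le_pow_left₀ (by positivity) hFcard 2
    rwa [mul_pow, Real.sq_sqrt hN0.le] at this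
  have h4 : c ^ 2 * N * (S / (20 * N)) ≤ K * ((Real.sqrt q + 1) / (Real.sqrt q - 1)) :=
    (mul_le_mul_of_nonneg_right h2 (by positivity)).trans hmain
  have h5 : c ^ 2 * N * (S / (20 * N)) = S * (c ^ 2 / 20) := by field_simp
  rw [h5] at h4
  have h6 : S = (S * (c ^ 2 / 20)) * (20 / c ^ 2) := by field_simp
  rw [h6]
  calc (S * (c ^ 2 / 20)) * (20 / c ^ 2)
      ≤ (K * ((Real.sqrt q + 1) / (Real.sqrt q - 1))) * (20 / c ^ 2) :=
        mul_le_mul_of_nonneg_right h4 (by positivity)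
    _ = _ := by ring

/-- **Divergence of the arc series.** -/
theorem arcs_ET (A : Set ℕ) (hA : Thick A) (q : ℝ) (hq : 1 < q) (α : ℕ → ℝ) (m : ℕ → ℕ)
    (hm : ∀ j, 0 < m j) (hlac : ∀ j, q * (m j : ℝ) ≤ m (j + 1))
    (hα : ∀ j, ∀ d : ℕ, 0 < d → d < m j → ∀ z : ℤ, (d : ℝ) * α j ≠ z)
    (hdiv : ¬ Summable fun j => (m j : ℝ) / (arcs A (α j) (m j) : ℝ) ^ 2) :
    ∀ K : ℕ, ∃ n, K < rep A n := by
  intro K
  by_contra hcon
  push Not at hcon
  obtain ⟨c, hc, hfreq⟩ := hA
  apply hdiv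
  refine summable_of_sum_range_le (c := 20 * K / c ^ 2 * ((Real.sqrt q + 1) / (Real.sqrt q - 1)))
    (fun j => by positivity) (fun k => ?_)
  exact arcs_partial A c hc hfreq K hcon q hq k α m (fun j _ => hm j) (fun j _ => hlac j)
    (fun j _ => hα j)

/-- **The number of arcs visited is not `O(√m)`**, uniformly in `α`. -/
theorem arcs_uniform (A : Set ℕ) (hA : Thick A) (hK : ∃ K : ℕ, ∀ n, rep A n ≤ K) (T : ℝ) :
    ∃ M : ℕ, ∀ m : ℕ, M ≤ m → ∀ α : ℝ,
      (∀ d : ℕ, 0 < d → d < m → ∀ z : ℤ, (d : ℝ) * α ≠ z) →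
        T * m ≤ (arcs A α m : ℝ) ^ 2 := by
  classical
  obtain ⟨K, hK⟩ := hK
  by_contra hcon
  push Not at hcon
  -- choose a lacunary sequence of bad pairs
  choose f hf α hα hbad using hcon
  set m : ℕ → ℕ := fun j => Nat.rec (f 1) (fun _ x => f (2 * x)) j with hmdef
  have hm0 : m 0 = f 1 := rfl
  have hms : ∀ j, m (j + 1) = f (2 * m j) := fun j => rfl
  have hidx : ∀ j, ∃ i, 1 ≤ i ∧ m j = f i := by
    intro j
    induction j with
    | zero => exact ⟨1, le_rfl, hm0⟩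
    | succ j ih =>
      obtain ⟨i, hi, hmi⟩ := ih
      refine ⟨2 * m j, ?_, hms j⟩
      have := hf i
      omega
  choose i hi hmi using hidx
  have hpos : ∀ j, 0 < m j := by
    intro j
    have := hf (i j)
    rw [hmi j]
    have := hi j
    omega
  obtain ⟨n, hn⟩ := arcs_ET A hA 2 (by norm_num) (fun j => α (i j)) m hpos
    (by
      intro j
      rw [hms j]
      have := hf (2 * m j)
      exact_mod_cast this)
    (by
      intro j
      rw [hmi j]
      exact hα (i j))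
    (by
      intro hsum
      have hlim := hsum.tendsto_atTop_zero
      -- each term is at least `1 / T`
      have hT : 0 < T := by
        have h1 := hbad 1
        have h2 : (0 : ℝ) ≤ (arcs A (α 1) (f 1) : ℝ) ^ 2 := by positivity
        have h3 : 0 < T * (f 1 : ℝ) := lt_of_le_of_lt h2 h1
        exact pos_of_mul_pos_left h3 (Nat.cast_nonneg _)
      obtain ⟨c, hc, hfreq⟩ := hA
      obtain ⟨N, hN1, hN2⟩ := (hfreq.and_eventually (eventually_ge_atTop 1)).exists
      have hne : A.Nonempty := by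
        by_contra hcon
        rw [Set.not_nonempty_iff_eq_empty] at hcon
        rw [hcon, Set.empty_inter, Set.ncard_empty] at hN1
        have : (0 : ℝ) < N := by exact_mod_cast hN2
        have : 0 < c * Real.sqrt N := by positivity
        simp only [Nat.cast_zero] at hN1
        linarith
      obtain ⟨a, ha⟩ := hne
      have hterm : ∀ j, 1 / T ≤ (m j : ℝ) / (arcs A (α (i j)) (m j) : ℝ) ^ 2 := by
        intro j
        have h1 : 0 < arcs A (α (i j)) (m j) := by
          refine lt_of_lt_of_le ?_ (card_idx_le A (α (i j)) (m j) (hpos j) {(a : ℤ)} ?_)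
          · simp
          · intro b hb
            rw [Finset.mem_singleton] at hb
            exact ⟨a, ha, hb.symm⟩
        have h2 : (0 : ℝ) < (arcs A (α (i j)) (m j) : ℝ) ^ 2 := by positivity
        rw [div_le_div_iff₀ hT h2, one_mul]
        have h3 := hbad (i j)
        rw [← hmi j] at h3
        linarith
      have h1 := (hlim.eventually (gt_mem_nhds (show (0 : ℝ) < 1 / T by positivity))).exists
      obtain ⟨j, hj⟩ := h1
      exact absurd hj (not_lt.2 (hterm j))) K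
  exact absurd (hK n) (by omega)

end Pool.Agent.R448
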