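import Pool.Agent.W111.LAR.Top

set_option autoImplicit false

/-!
Linear arboricity from orientations: decomposition of a digraph with in- and outdegrees at most `k`
into `k` digraphs with in- and outdegrees at most one, and the directed cycles in the cyclic
components of the latter.
-/

namespace Pool.Agent.R448.LD

open Finset SimpleGraph H931R3.LA Pool.Agent.W111.LAR

/-- Labels `< k` of the arcs such that arcs with the same tail, and arcs with the same head, have
different labels. -/
theorem labels {V : Type} [Finite V] (D : V → V → Prop) (k : ℕ)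
    (hout : ∀ v, {w | D v w}.ncard ≤ k) (hin : ∀ v, {w | D w v}.ncard ≤ k) :
    ∃ lab : V → V → ℕ, (∀ u v, D u v → lab u v < k) ∧
      (∀ u v w, D u v → D u w → lab u v = lab u w → v = w) ∧
      (∀ u v w, D u w → D v w → lab u w = lab v w → u = v) := by
  classical
  have := Fintype.ofFinite V
  let A : Type := {p : V × V // D p.1 p.2}
  have : Fintype A := Fintype.ofFinite A
  let dO : V → ℕ := fun v => k - {w | D v w}.ncard
  let dI : V → ℕ := fun v => k - {w | D w v}.ncard
  have cO : ∀ v, (univ.filter (fun e : A => e.1.1 = v)).card = {w | D v w}.ncard := by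
    intro v
    rw [Set.ncard_eq_toFinset_card']
    refine card_bij (fun e _ => e.1.2) ?_ ?_ ?_
    · rintro ⟨⟨a, b⟩, h⟩ he
      have h1 : a = v := (mem_filter.1 he).2
      subst h1
      simpa using h
    · rintro ⟨⟨a, b⟩, h⟩ he ⟨⟨a', b'⟩, h'⟩ he' hbb
      have h1 : a = v := (mem_filter.1 he).2
      have h2 : a' = v := (mem_filter.1 he').2
      have h3 : b = b' := hbb
      subst h1; subst h2; subst h3
      rfl
    · intro w hw
      have hw' : D v w := by simpa using hw
      exact ⟨⟨(v, w), hw'⟩, mem_filter.2 ⟨mem_univ _, rfl⟩, rfl⟩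
  have cI : ∀ v, (univ.filter (fun e : A => e.1.2 = v)).card = {w | D w v}.ncard := by
    intro v
    rw [Set.ncard_eq_toFinset_card']
    refine card_bij (fun e _ => e.1.1) ?_ ?_ ?_
    · rintro ⟨⟨a, b⟩, h⟩ he
      have h1 : b = v := (mem_filter.1 he).2
      subst h1
      simpa using h
    · rintro ⟨⟨a, b⟩, h⟩ he ⟨⟨a', b'⟩, h'⟩ he' hbb
      have h1 : b = v := (mem_filter.1 he).2
      have h2 : b' = v := (mem_filter.1 he').2
      have h3 : a = a' := hbb
      subst h1; subst h2; subst h3
      rfl
    · intro w hw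
      have hw' : D w v := by simpa using hw
      exact ⟨⟨(w, v), hw'⟩, mem_filter.2 ⟨mem_univ _, rfl⟩, rfl⟩
  have sO : ∑ v, {w | D v w}.ncard = Fintype.card A := by
    have h1 : (univ : Finset A).card = ∑ v ∈ (univ : Finset V),
        (univ.filter (fun e : A => e.1.1 = v)).card :=
      card_eq_sum_card_fiberwise (fun e _ => mem_univ _)
    rw [← card_univ, h1]
    exact sum_congr rfl fun v _ => (cO v).symm
  have sI : ∑ v, {w | D w v}.ncard = Fintype.card A := by
    have h1 : (univ : Finset A).card = ∑ v ∈ (univ : Finset V),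
        (univ.filter (fun e : A => e.1.2 = v)).card :=
      card_eq_sum_card_fiberwise (fun e _ => mem_univ _)
    rw [← card_univ, h1]
    exact sum_congr rfl fun v _ => (cI v).symm
  have tO : ∑ v, dO v + Fintype.card A = Fintype.card V * k := by
    rw [← sO, ← sum_add_distrib]
    have : ∀ v, dO v + {w | D v w}.ncard = k := fun v => Nat.sub_add_cancel (hout v)
    simp_rw [this]
    rw [sum_const, smul_eq_mul, card_univ]
  have tI : ∑ v, dI v + Fintype.card A = Fintype.card V * k := by
    rw [← sI, ← sum_add_distrib]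
    have : ∀ v, dI v + {w | D w v}.ncard = k := fun v => Nat.sub_add_cancel (hin v)
    simp_rw [this]
    rw [sum_const, smul_eq_mul, card_univ]
  let q : ℕ := ∑ v, dO v
  have eO : Fintype.card (Fin q) = Fintype.card (Σ v : V, Fin (dO v)) := by
    rw [Fintype.card_fin, Fintype.card_sigma]
    simp only [Fintype.card_fin]
    rfl
  have eI : Fintype.card (Fin q) = Fintype.card (Σ v : V, Fin (dI v)) := by
    rw [Fintype.card_fin, Fintype.card_sigma]
    simp only [Fintype.card_fin]
    show ∑ v, dO v = _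
    omega
  let so : Fin q ≃ (Σ v : V, Fin (dO v)) := Fintype.equivOfCardEq eO
  let si : Fin q ≃ (Σ v : V, Fin (dI v)) := Fintype.equivOfCardEq eI
  have gen : ∀ (d : V → ℕ) (sl : Fin q ≃ (Σ v : V, Fin (d v))) (v : V),
      (univ.filter (fun j : Fin q => (sl j).1 = v)).card = d v := by
    intro d sl v
    have h2 : (univ.filter (fun x : Fin q => (sl x).1 = v)).card =
        (univ : Finset (Fin (d v))).card := by
      symm
      refine card_bij (fun i _ => sl.symm ⟨v, i⟩) ?_ ?_ ?_
      · intro i _
        simp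
      · intro i _ j _ h
        have := sl.symm.injective h
        simpa using this
      · intro x hx
        obtain ⟨_, hx⟩ := mem_filter.1 hx
        subst hx
        exact ⟨(sl x).2, mem_univ _, by simp⟩
    rw [h2, card_univ, Fintype.card_fin]
  let l : A ⊕ Fin q → V := Sum.elim (fun e => e.1.1) (fun j => (so j).1)
  let r : A ⊕ Fin q → V := Sum.elim (fun e => e.1.2) (fun j => (si j).1)
  have hl : ∀ v, (univ.filter (fun e => l e = v)).card = k := by
    intro v
    have h1 : (univ.filter (fun e : A ⊕ Fin q => l e = v)).card =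
        (univ.filter (fun e : A => e.1.1 = v)).card +
        (univ.filter (fun j : Fin q => (so j).1 = v)).card := by
      simp only [card_filter]
      rw [Fintype.sum_sum_type]
      rfl
    rw [h1, cO, gen]
    exact Nat.add_sub_cancel' (hout v)
  have hr : ∀ v, (univ.filter (fun e => r e = v)).card = k := by
    intro v
    have h1 : (univ.filter (fun e : A ⊕ Fin q => r e = v)).card =
        (univ.filter (fun e : A => e.1.2 = v)).card +
        (univ.filter (fun j : Fin q => (si j).1 = v)).card := by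
      simp only [card_filter]
      rw [Fintype.sum_sum_type]
      rfl
    rw [h1, cI, gen]
    exact Nat.add_sub_cancel' (hin v)
  obtain ⟨ℓ, hℓ, h1, h2⟩ := konig l r k univ hl hr
  refine ⟨fun u v => if h : D u v then ℓ (Sum.inl ⟨(u, v), h⟩) else 0, ?_, ?_, ?_⟩
  · intro u v h
    simp only [h, dif_pos]
    exact hℓ _ (mem_univ _)
  · intro u v w hv hw h
    simp only [hv, hw, dif_pos] at h
    have := h1 (Sum.inl ⟨(u, v), hv⟩) (mem_univ _) (Sum.inl ⟨(u, w), hw⟩) (mem_univ _) rfl h
    have h3 := Sum.inl_injective this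
    exact congrArg (fun e : A => e.1.2) h3
  · intro u v w hu hv h
    simp only [hu, hv, dif_pos] at h
    have := h2 (Sum.inl ⟨(u, w), hu⟩) (mem_univ _) (Sum.inl ⟨(v, w), hv⟩) (mem_univ _) rfl h
    have h3 := Sum.inl_injective this
    exact congrArg (fun e : A => e.1.1) h3

/-- The edges with label `i`. -/
def lg {V : Type} (D : V → V → Prop) (lab : V → V → ℕ) (i : ℕ) : SimpleGraph V where
  Adj u v := u ≠ v ∧ ((D u v ∧ lab u v = i) ∨ (D v u ∧ lab v u = i))
  symm.symm := by
    rintro u v ⟨h, h'⟩
    exact ⟨h.symm, h'.symm⟩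
  loopless.irrefl := fun u h => h.1 rfl

section

variable {V : Type} [Finite V] {D : V → V → Prop} {lab : V → V → ℕ}

theorem out_le (h1 : ∀ u v w, D u v → D u w → lab u v = lab u w → v = w) (i : ℕ) (v : V) :
    {w | D v w ∧ lab v w = i}.ncard ≤ 1 := by
  refine (Set.ncard_le_one (Set.toFinite _)).2 ?_
  rintro x ⟨hx, hx'⟩ y ⟨hy, hy'⟩
  exact h1 v x y hx hy (hx'.trans hy'.symm)

theorem in_le (h2 : ∀ u v w, D u w → D v w → lab u w = lab v w → u = v) (i : ℕ) (v : V) :
    {w | D w v ∧ lab w v = i}.ncard ≤ 1 := by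
  refine (Set.ncard_le_one (Set.toFinite _)).2 ?_
  rintro x ⟨hx, hx'⟩ y ⟨hy, hy'⟩
  exact h2 x y v hx hy (hx'.trans hy'.symm)

omit [Finite V] in
theorem lg_sub (i : ℕ) (v : V) : (lg D lab i).neighborSet v ⊆
    {w | D v w ∧ lab v w = i} ∪ {w | D w v ∧ lab w v = i} := by
  intro w hw
  exact hw.2

theorem lg_deg (h1 : ∀ u v w, D u v → D u w → lab u v = lab u w → v = w)
    (h2 : ∀ u v w, D u w → D v w → lab u w = lab v w → u = v) (i : ℕ) (v : V) :
    ((lg D lab i).neighborSet v).ncard ≤ 2 := by
  have h3 := Set.ncard_le_ncard (lg_sub (D := D) (lab := lab) i v) (Set.toFinite _)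
  have h4 := Set.ncard_union_le {w | D v w ∧ lab v w = i} {w | D w v ∧ lab w v = i}
  have h5 := out_le h1 i v
  have h6 := in_le h2 i v
  omega

/-- In a cyclic component every vertex has an out-neighbour. -/
theorem cyc_out (h2 : ∀ u v w, D u w → D v w → lab u w = lab v w → u = v) {i : ℕ} {v : V}
    (h : Cyc (lg D lab i) v) : ∃ w, D v w ∧ lab v w = i := by
  by_contra hcon
  push Not at hcon
  have h3 : (lg D lab i).neighborSet v ⊆ {w | D w v ∧ lab w v = i} := by
    intro w hw
    rcases lg_sub (D := D) (lab := lab) i v hw with h4 | h4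
    · exact absurd h4.2 (hcon w h4.1)
    · exact h4
  have h4 := Set.ncard_le_ncard h3 (Set.toFinite _)
  have h5 := in_le h2 i v
  have h6 := h v (Reachable.refl v)
  omega

theorem cyc_in (h1 : ∀ u v w, D u v → D u w → lab u v = lab u w → v = w) {i : ℕ} {v : V}
    (h : Cyc (lg D lab i) v) : ∃ w, D w v ∧ lab w v = i := by
  by_contra hcon
  push Not at hcon
  have h3 : (lg D lab i).neighborSet v ⊆ {w | D v w ∧ lab v w = i} := by
    intro w hw
    rcases lg_sub (D := D) (lab := lab) i v hw with h4 | h4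
    · exact h4
    · exact absurd h4.2 (hcon w h4.1)
  have h4 := Set.ncard_le_ncard h3 (Set.toFinite _)
  have h5 := out_le h1 i v
  have h6 := h v (Reachable.refl v)
  omega

/-- In a cyclic component through `v` there is a directed cycle through `v`. -/
theorem cyc_dir (hirr : ∀ v, ¬ D v v)
    (h2 : ∀ u v w, D u w → D v w → lab u w = lab v w → u = v) {i : ℕ} {v : V}
    (h : Cyc (lg D lab i) v) : ∃ (n : ℕ) (c : ZMod n → V), 0 < n ∧ n ≤ csize (lg D lab i) v ∧
      Function.Injective c ∧ (∀ j, D (c j) (c (j + 1))) ∧ c 0 = v := by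
  classical
  let K : Set V := {w | (lg D lab i).Reachable v w}
  have hK : ∀ w : K, ∃ x : K, D w.1 x.1 ∧ lab w.1 x.1 = i := by
    intro w
    obtain ⟨x, hx, hx'⟩ := cyc_out h2 (h.trans w.2)
    have hne : w.1 ≠ x := by
      intro he
      rw [← he] at hx
      exact hirr _ hx
    have hadj : (lg D lab i).Adj w.1 x := ⟨hne, Or.inl ⟨hx, hx'⟩⟩
    exact ⟨⟨x, (w.2 : (lg D lab i).Reachable v w.1).trans hadj.reachable⟩, hx, hx'⟩
  choose s hs hs' using hK
  have hinj : Function.Injective s := by
    intro a b hab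
    have h3 := hs b
    have h4 := hs' b
    rw [← hab] at h3 h4
    exact Subtype.ext (h2 _ _ _ (hs a) h3 ((hs' a).trans h4.symm))
  let v0 : K := ⟨v, Reachable.refl v⟩
  have hper : v0 ∈ Function.periodicPts s := hinj.mem_periodicPts v0
  set n := Function.minimalPeriod s v0 with hn
  have hn0 : 0 < n := Function.minimalPeriod_pos_of_mem_periodicPts hper
  have : NeZero n := ⟨hn0.ne'⟩
  have hcinj : ∀ a b : ℕ, a < n → b < n → s^[a] v0 = s^[b] v0 → a = b := by
    intro a b ha hb hab
    exact Function.iterate_injOn_Iio_minimalPeriod ha hb hab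
  refine ⟨n, fun j => (s^[j.val] v0).1, hn0, ?_, ?_, ?_, ?_⟩
  · have h3 : Nat.card (Fin n) ≤ Nat.card K := by
      refine Nat.card_le_card_of_injective (fun j : Fin n => s^[j.val] v0) ?_
      intro a b hab
      exact Fin.ext (hcinj a b a.2 b.2 hab)
    rw [Nat.card_fin, Nat.card_coe_set_eq] at h3
    exact h3
  · intro a b hab
    have h3 : s^[a.val] v0 = s^[b.val] v0 := Subtype.ext hab
    exact ZMod.val_injective n (hcinj _ _ (ZMod.val_lt a) (ZMod.val_lt b) h3)
  · intro j
    have h3 : s^[(j + 1).val] v0 = s (s^[j.val] v0) := by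
      rw [← Function.iterate_succ_apply' s]
      have h4 : (j + 1).val = (j.val + 1) % n := by
        rw [ZMod.val_add]
        rcases Nat.lt_or_ge 1 n with h5 | h5
        · have : Fact (1 < n) := ⟨h5⟩
          rw [ZMod.val_one]
        · have h6 : ∀ x : ℕ, x % n = 0 := fun x => by
            have := Nat.mod_lt x hn0
            omega
          rw [h6, h6]
      rw [h4]
      exact Function.iterate_mod_minimalPeriod_eq
    show D (s^[j.val] v0).1 (s^[(j + 1).val] v0).1
    rw [h3]
    exact hs _
  · show (s^[(0 : ZMod n).val] v0).1 = v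
    rw [ZMod.val_zero]
    rfl

end

/-- The graphs `lg D lab i`, `i < k`, cover the underlying graph. -/
theorem lg_sup {V : Type} {G : SimpleGraph V} {D : V → V → Prop} {lab : V → V → ℕ} {k : ℕ}
    (hD : ∀ u v, G.Adj u v ↔ D u v ∨ D v u) (hlab : ∀ u v, D u v → lab u v < k) :
    (⨆ i : Fin k, lg D lab i) = G := by
  ext u v
  simp only [iSup_adj]
  constructor
  · rintro ⟨i, _, hi | hi⟩
    · exact (hD u v).2 (Or.inl hi.1)
    · exact (hD u v).2 (Or.inr hi.1)
  · intro h
    have hne := h.ne
    rcases (hD u v).1 h with h1 | h1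
    · exact ⟨⟨lab u v, hlab _ _ h1⟩, hne, Or.inl ⟨h1, rfl⟩⟩
    · exact ⟨⟨lab v u, hlab _ _ h1⟩, hne, Or.inr ⟨h1, rfl⟩⟩

end Pool.Agent.R448.LD
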