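import Pool.Agent.R448.LDMain

set_option autoImplicit false

/-!
Linear arboricity of graphs with a cyclic layout: arcs go forward by at most `j` layers.
-/

namespace Pool.Agent.R448.LD

open Finset SimpleGraph H931R3.LA Pool.Agent.W111.LAR

/-- Graph with arcs `A` of in- and outdegree at most one, along which a potential increases. -/
theorem lf_of_pot {V : Type} [Finite V] (F : SimpleGraph V) (A : V → V → Prop)
    (hF : ∀ u v, F.Adj u v → A u v ∨ A v u) (h1 : ∀ u v w, A u v → A u w → v = w)
    (h2 : ∀ u v w, A u w → A v w → u = v) (φ : V → ℕ) (hφ : ∀ u v, A u v → φ u < φ v) :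
    IsLF F := by
  classical
  constructor
  · intro v0 c hc
    obtain ⟨w, hw, hmax⟩ := exists_max_image c.support.toFinset φ ⟨v0, by simp⟩
    have hw' : w ∈ c.support := by simpa using hw
    have hmax' : ∀ u ∈ c.support, φ u ≤ φ w := fun u hu => hmax u (by simpa using hu)
    have h3 := hc.ncard_neighborSet_toSubgraph_eq_two hw'
    obtain ⟨x, y, hxy, hset⟩ := Set.ncard_eq_two.1 h3
    have hx : c.toSubgraph.Adj w x := by
      have : x ∈ c.toSubgraph.neighborSet w := by rw [hset]; simp
      exact this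
    have hy : c.toSubgraph.Adj w y := by
      have : y ∈ c.toSubgraph.neighborSet w := by rw [hset]; simp
      exact this
    have hxs : x ∈ c.support := by
      have := hx.snd_mem
      rwa [Walk.mem_verts_toSubgraph] at this
    have hys : y ∈ c.support := by
      have := hy.snd_mem
      rwa [Walk.mem_verts_toSubgraph] at this
    have hxA : A x w := by
      rcases hF w x hx.adj_sub with h | h
      · have := hφ _ _ h
        have := hmax' x hxs
        omega
      · exact h
    have hyA : A y w := by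
      rcases hF w y hy.adj_sub with h | h
      · have := hφ _ _ h
        have := hmax' y hys
        omega
      · exact h
    exact hxy (h2 x y w hxA hyA)
  · intro v
    have h3 : F.neighborSet v ⊆ {w | A v w} ∪ {w | A w v} := fun w hw => hF v w hw
    have h4 := Set.ncard_le_ncard h3 (Set.toFinite _)
    have h5 := Set.ncard_union_le {w | A v w} {w | A w v}
    have h6 : {w | A v w}.ncard ≤ 1 :=
      (Set.ncard_le_one (Set.toFinite _)).2 fun a ha b hb => h1 v a b ha hb
    have h7 : {w | A w v}.ncard ≤ 1 :=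
      (Set.ncard_le_one (Set.toFinite _)).2 fun a ha b hb => h2 a b v ha hb
    omega

/-- The graph with arcs `A`. -/
def ug {V : Type} (A : V → V → Prop) : SimpleGraph V where
  Adj u v := u ≠ v ∧ (A u v ∨ A v u)
  symm.symm := by
    rintro u v ⟨h, h'⟩
    exact ⟨h.symm, h'.symm⟩
  loopless.irrefl := fun u h => h.1 rfl

theorem cov_layers {V : Type} [Finite V] (G : SimpleGraph V) (D : V → V → Prop) (k j N t : ℕ)
    (hj : 1 ≤ j) (f : V → ZMod N) (hD : ∀ u v, G.Adj u v ↔ D u v ∨ D v u)
    (hout : ∀ v, {w | D v w}.ncard ≤ k) (hin : ∀ v, {w | D w v}.ncard ≤ k)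
    (hf : ∀ u v, D u v → ∃ s : ℕ, 1 ≤ s ∧ s ≤ j ∧ f v = f u + s)
    (hk : k ≤ t * (N / j - 1)) : Cov G (k + t) := by
  classical
  obtain ⟨lab, h0, h1, h2⟩ := labels D k hout hin
  have hirr : ∀ v, ¬ D v v := fun v h => G.loopless.irrefl v ((hD v v).2 (Or.inl h))
  rcases Nat.eq_zero_or_pos k with hk0 | hk0
  · have hG : G = ⊥ := by
      ext u v
      constructor
      · intro h
        rcases (hD u v).1 h with h3 | h3
        · have := h0 _ _ h3; omega
        · have := h0 _ _ h3; omega
      · intro h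
        exact absurd h (by simp)
    subst hG
    have h3 : Nat.card (Fin (k + t)) = k + t := by simp
    rw [← h3]
    refine cov_of_type (fun _ => ⊥) (fun _ => ?_) ?_
    · refine lf_of_pot ⊥ (fun _ _ => False) (fun u v h => absurd h (by simp)) (by simp) (by simp)
        (fun _ => 0) (by simp)
    · simp
  obtain ⟨M, hM⟩ : ∃ M, N / j = M + 1 := by
    refine ⟨N / j - 1, ?_⟩
    rcases Nat.eq_zero_or_pos (N / j) with h | h
    · rw [h] at hk
      simp at hk
      omega
    · omega
  rw [hM, Nat.add_sub_cancel] at hk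
  have hM0 : 0 < M := by
    rcases Nat.eq_zero_or_pos M with h | h
    · rw [h] at hk; omega
    · exact h
  have hNj : (M + 1) * j ≤ N := by
    rw [← hM]
    exact Nat.div_mul_le_self N j
  have hNpos : 0 < N := lt_of_lt_of_le (Nat.mul_pos (Nat.succ_pos M) hj) hNj
  have : NeZero N := ⟨hNpos.ne'⟩
  have h2j : 2 * j ≤ N := le_trans (Nat.mul_le_mul_right j (by omega)) hNj
  let p : V → ℕ := fun v => (f v).val
  have hpN : ∀ v, p v < N := fun v => ZMod.val_lt _
  have hstep : ∀ u v, D u v → ∃ s : ℕ, 1 ≤ s ∧ s ≤ j ∧ (p v = p u + s ∨ p v + N = p u + s) := by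
    intro u v h
    obtain ⟨s, hs1, hs2, hs3⟩ := hf u v h
    refine ⟨s, hs1, hs2, ?_⟩
    have h3 : p v = (p u + s) % N := by
      show (f v).val = _
      rw [hs3, ZMod.val_add, ZMod.val_natCast, Nat.add_mod_mod]
    have h4 := hpN u
    rcases Nat.lt_or_ge (p u + s) N with h5 | h5
    · left
      rw [h3, Nat.mod_eq_of_lt h5]
    · right
      rw [h3, Nat.mod_eq_sub_mod h5, Nat.mod_eq_of_lt (by omega)]
      omega
  let τ : ℕ → ℕ := fun i => (i % M + 1) * j
  have hτ1 : ∀ i, j ≤ τ i := fun i => Nat.le_mul_of_pos_left j (Nat.succ_pos _)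
  have hτ2 : ∀ i, τ i + j ≤ N := by
    intro i
    have h3 : i % M < M := Nat.mod_lt _ hM0
    have h4 : τ i + j = (i % M + 1 + 1) * j := by
      show (i % M + 1) * j + j = _
      ring
    rw [h4]
    exact le_trans (Nat.mul_le_mul_right j (by omega)) hNj
  -- crossing the boundary
  let X : ℕ → V → V → Prop := fun i u v => p u < τ i ∧ τ i ≤ p v ∧ p v < τ i + j ∧ τ i ≤ p u + j
  let Am : Fin k → V → V → Prop := fun i u v => D u v ∧ lab u v = i ∧ ¬ X i u v
  let Aq : Fin t → V → V → Prop := fun g u v => D u v ∧ lab u v / M = g ∧ X (lab u v) u v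
  have hτinj : ∀ a b x : ℕ, τ a ≤ x → x < τ a + j → τ b ≤ x → x < τ b + j → a % M = b % M := by
    intro a b x ha ha' hb hb'
    have e1 : x / j = a % M + 1 := by
      refine Nat.div_eq_of_lt_le ?_ ?_
      · exact ha
      · have : τ a + j = (a % M + 1 + 1) * j := by
          show (a % M + 1) * j + j = _
          ring
        rw [← this]; exact ha'
    have e2 : x / j = b % M + 1 := by
      refine Nat.div_eq_of_lt_le ?_ ?_
      · exact hb
      · have : τ b + j = (b % M + 1 + 1) * j := by
          show (b % M + 1) * j + j = _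
          ring
        rw [← this]; exact hb'
    omega
  have hsame : ∀ a b : ℕ, a / M = b / M → a % M = b % M → a = b := by
    intro a b h3 h4
    rw [← Nat.div_add_mod a M, ← Nat.div_add_mod b M, h3, h4]
  have hcard : Nat.card (Fin k ⊕ Fin t) = k + t := by simp
  rw [← hcard]
  refine cov_of_type (Sum.elim (fun i => ug (Am i)) (fun g => ug (Aq g))) ?_ ?_
  · rintro (i | g)
    · refine lf_of_pot (ug (Am i)) (Am i) (fun u v h => h.2) ?_ ?_
        (fun v => if τ i ≤ p v then p v - τ i else p v + N - τ i) ?_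
      · rintro u v w ⟨hv, hv', _⟩ ⟨hw, hw', _⟩
        exact h1 u v w hv hw (hv'.trans hw'.symm)
      · rintro u v w ⟨hu, hu', _⟩ ⟨hv, hv', _⟩
        exact h2 u v w hu hv (hu'.trans hv'.symm)
      · rintro u v ⟨huv, _, hX⟩
        obtain ⟨s, hs1, hs2, hs⟩ := hstep u v huv
        have h3 := hpN u
        have h4 := hpN v
        have h5 := hτ1 i
        have h6 := hτ2 i
        have hX' : ¬ (p u < τ i ∧ τ i ≤ p v ∧ p v < τ i + j ∧ τ i ≤ p u + j) := hX
        rcases hs with hs | hs
        · split_ifs with h7 h8 h8 <;> omega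
        · split_ifs with h7 h8 h8 <;> omega
    · refine lf_of_pot (ug (Aq g)) (Aq g) (fun u v h => h.2) ?_ ?_ p ?_
      · rintro u v w ⟨hv, hv', hv1, hv2, hv3, hv4⟩ ⟨hw, hw', hw1, hw2, hw3, hw4⟩
        refine h1 u v w hv hw (hsame _ _ (hv'.trans hw'.symm) ?_)
        exact hτinj _ _ (p u + j) hv4 (by omega) hw4 (by omega)
      · rintro u v w ⟨hv, hv', hv1, hv2, hv3, hv4⟩ ⟨hw, hw', hw1, hw2, hw3, hw4⟩
        refine h2 u v w hv hw (hsame _ _ (hv'.trans hw'.symm) ?_)
        exact hτinj _ _ (p w) hv2 hv3 hw2 hw3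
      · rintro u v ⟨_, _, hv1, hv2, _, _⟩
        omega
  · have hle : ∀ u v, D u v → ∃ i : Fin k ⊕ Fin t, (Sum.elim (fun i => ug (Am i))
        (fun g => ug (Aq g)) i).Adj u v := by
      intro u v h
      have hne : u ≠ v := by
        rintro rfl
        exact hirr _ h
      have h3 := h0 u v h
      by_cases hX : X (lab u v) u v
      · refine ⟨Sum.inr ⟨lab u v / M, ?_⟩, hne, Or.inl ⟨h, rfl, hX⟩⟩
        rw [Nat.div_lt_iff_lt_mul hM0]
        omega
      · exact ⟨Sum.inl ⟨lab u v, h3⟩, hne, Or.inl ⟨h, rfl, hX⟩⟩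
    ext u v
    simp only [iSup_adj]
    constructor
    · rintro ⟨i | g, hne, hi | hi⟩
      · exact (hD u v).2 (Or.inl hi.1)
      · exact (hD u v).2 (Or.inr hi.1)
      · exact (hD u v).2 (Or.inl hi.1)
      · exact (hD u v).2 (Or.inr hi.1)
    · intro h
      rcases (hD u v).1 h with h3 | h3
      · exact hle u v h3
      · obtain ⟨i, hi⟩ := hle v u h3
        exact ⟨i, hi.symm⟩

end Pool.Agent.R448.LD
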