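import Pool.Agent.R448.LTwist

set_option autoImplicit false

/-!
Blow-ups of graphs with an orientation without short directed cycles.
-/

namespace Pool.Agent.R448.LP

open Finset SimpleGraph H931R3.LA Pool.Agent.W111.LAR Function

open Classical in
/-- The cycle of `v`. -/
noncomputable def orb {V : Type} [Fintype V] (σ : Equiv.Perm V) (v : V) : Finset V :=
  univ.filter (fun w => σ.SameCycle v w)

theorem mem_orb {V : Type} [Fintype V] {σ : Equiv.Perm V} {v w : V} :
    w ∈ orb σ v ↔ σ.SameCycle v w := by
  classical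
  simp [orb]

theorem orb_eq {V : Type} [Fintype V] {σ : Equiv.Perm V} {v w : V} (h : σ.SameCycle v w) :
    orb σ w = orb σ v := by
  ext x
  rw [mem_orb, mem_orb]
  exact ⟨fun h' => h.trans h', fun h' => h.symm.trans h'⟩

theorem orb_image {V : Type} [Fintype V] [DecidableEq V] (σ : Equiv.Perm V) (v : V) :
    (range (minimalPeriod σ v)).image (fun j => σ^[j] v) = orb σ v := by
  have hpos : 0 < minimalPeriod σ v :=
    minimalPeriod_pos_of_mem_periodicPts (σ.injective.mem_periodicPts _)
  ext w
  rw [mem_image, mem_orb]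
  constructor
  · rintro ⟨j, _, rfl⟩
    exact sameCycle_of_iterate σ j v
  · intro h
    obtain ⟨n, hn⟩ := h.exists_nat_pow_eq
    refine ⟨n % minimalPeriod σ v, mem_range.2 (Nat.mod_lt _ hpos), ?_⟩
    rw [iterate_mod_minimalPeriod_eq, Equiv.Perm.iterate_eq_pow]
    exact hn

theorem orb_inj {V : Type} (σ : Equiv.Perm V) (v : V) :
    Set.InjOn (fun j => σ^[j] v) (range (minimalPeriod σ v) : Set ℕ) := by
  intro a ha b hb hab
  rw [mem_coe, mem_range] at ha hb
  exact iterate_injOn_Iio_minimalPeriod (f := σ) (x := v) ha hb hab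

theorem orb_sum {V : Type} [Fintype V] (σ : Equiv.Perm V) (v : V) {X : Type} [AddCommMonoid X]
    (g : V → X) : ∑ j ∈ range (minimalPeriod σ v), g (σ^[j] v) = ∑ w ∈ orb σ v, g w := by
  classical
  rw [← orb_image, sum_image (orb_inj σ v)]

theorem orb_card {V : Type} [Fintype V] (σ : Equiv.Perm V) (v : V) :
    (orb σ v).card = minimalPeriod σ v := by
  classical
  rw [← orb_image, card_image_of_injOn (orb_inj σ v), card_range]

/-- A cycle of the permutation contained in `D`. -/
theorem perm_cycle {V : Type} [Finite V] (D : V → V → Prop) (σ : Equiv.Perm V) (v : V)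
    (h : ∀ n, D (σ^[n] v) (σ^[n + 1] v)) : 0 < minimalPeriod σ v ∧
      ∃ c : ZMod (minimalPeriod σ v) → V, Function.Injective c ∧ ∀ j, D (c j) (c (j + 1)) := by
  have hn0 : 0 < minimalPeriod σ v :=
    minimalPeriod_pos_of_mem_periodicPts (σ.injective.mem_periodicPts _)
  have : NeZero (minimalPeriod σ v) := ⟨hn0.ne'⟩
  refine ⟨hn0, fun j => σ^[j.val] v, ?_, ?_⟩
  · intro a b hab
    exact ZMod.val_injective _ (iterate_injOn_Iio_minimalPeriod (f := σ) (x := v)
      (ZMod.val_lt a) (ZMod.val_lt b) hab)
  · intro j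
    have h3 : σ^[(j + 1).val] v = σ^[j.val + 1] v := by
      have h4 : (j + 1).val = (j.val + 1) % minimalPeriod σ v := by
        rw [ZMod.val_add]
        rcases Nat.lt_or_ge 1 (minimalPeriod σ v) with h5 | h5
        · have : Fact (1 < minimalPeriod σ v) := ⟨h5⟩
          rw [ZMod.val_one]
        · have h6 : ∀ x : ℕ, x % minimalPeriod σ v = 0 := fun x => by
            have := Nat.mod_lt x hn0
            omega
          rw [h6, h6]
      rw [h4]
      exact iterate_mod_minimalPeriod_eq
    show D (σ^[j.val] v) (σ^[(j + 1).val] v)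
    rw [h3]
    exact h _

theorem cov_twist {V : Type} [Finite V] (G : SimpleGraph V) (D : V → V → Prop) (k m : ℕ)
    (hk : 0 < k) [NeZero m] (hD : ∀ u v, G.Adj u v ↔ D u v ∨ D v u)
    (hout : ∀ v, {w | D v w}.ncard ≤ k) (hin : ∀ v, {w | D w v}.ncard ≤ k)
    (hcyc : ∀ (n : ℕ) (c : ZMod n → V), 0 < n → Function.Injective c →
      (∀ j, D (c j) (c (j + 1))) → 2 * k ≤ n ∧
        (m % 4 = 2 → Odd n → 2 * k * (m + 1) ≤ m * n))
    (W : Type) [Finite W] (f : W → V) (hf : ∀ v, {x | f x = v}.ncard = m) :
    Cov (G.comap f) (k * m + 1) := by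
  classical
  have := Fintype.ofFinite V
  obtain ⟨σ, hσ⟩ := perms D k hout hin
  obtain ⟨E, hE⟩ := fibre_equiv (X := ZMod m) f (by simpa using hf)
  -- the twists
  have hch : ∀ O : Finset V, ∃ (φ : V → Equiv.Perm (ZMod m)) (c : ZMod m → ZMod m),
      2 ≤ O.card → (∀ t, ∑ w ∈ O, φ w t = c t) ∧
        ∑ t, (1 : ℝ) / addOrderOf (c t) ≤ bd m O.card := by
    intro O
    by_cases hO : 2 ≤ O.card
    · obtain ⟨φ, c, h1, h2⟩ := twist_set m O hO
      exact ⟨φ, c, fun _ => ⟨h1, h2⟩⟩
    · exact ⟨fun _ => Equiv.refl _, fun _ => 0, fun h => absurd h hO⟩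
  choose Φ c hΦ using hch
  let φ : Fin k → V → Equiv.Perm (ZMod m) := fun i v => Φ (orb (σ i) v) v
  let T : Fin k × ZMod m → Equiv.Perm (V × ZMod m) := fun F =>
    skewPerm (σ F.1) (fun v => φ F.1 v F.2)
  let S : Fin k × ZMod m → Equiv.Perm W := fun F => (E.trans (T F)).trans E.symm
  have hS : ∀ F p, S F (E.symm p) = E.symm (T F p) := by
    intro F p
    show E.symm (T F (E (E.symm p))) = _
    rw [Equiv.apply_symm_apply]
  have hfE : ∀ p, f (E.symm p) = p.1 := by
    intro p
    rw [← hE, Equiv.apply_symm_apply]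
  have hSx : ∀ F x, f (S F x) = σ F.1 (f x) := by
    intro F x
    obtain ⟨p, rfl⟩ := E.symm.surjective x
    rw [hS, hfE, hfE]
    rfl
  have hSn : ∀ F x n, f ((S F)^[n] x) = (σ F.1)^[n] (f x) := by
    intro F x n
    induction n with
    | zero => rfl
    | succ n ih => rw [iterate_succ_apply', hSx, ih, ← iterate_succ_apply' (σ F.1)]
  let D' : W → W → Prop := fun x y => D (f x) (f y)
  have hD' : ∀ x y, (G.comap f).Adj x y ↔ D' x y ∨ D' y x := fun x y => hD (f x) (f y)
  have hlab : ∀ x y, D' x y → ∃ F, S F x = y := by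
    intro x y hxy
    obtain ⟨i, hi⟩ := hσ _ _ hxy
    refine ⟨(i, (φ i (f x)).symm ((E y).2 - (E x).2)), ?_⟩
    apply E.injective
    show E (E.symm (T _ (E x))) = E y
    rw [Equiv.apply_symm_apply]
    refine Prod.ext ?_ ?_
    · show σ i (E x).1 = (E y).1
      rw [hE, hE, hi]
    · show (E x).2 + φ i (E x).1 ((φ i (f x)).symm ((E y).2 - (E x).2)) = (E y).2
      rw [hE, Equiv.apply_symm_apply]
      ring
  have hirr : ∀ v, ¬ D v v := fun v h => G.loopless.irrefl v ((hD v v).2 (Or.inl h))
  have hkR : (0 : ℝ) < k := by exact_mod_cast hk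
  have hmR : (0 : ℝ) < m := by exact_mod_cast Nat.pos_of_ne_zero (NeZero.ne m)
  have hcov := cov_perm (G.comap f) D' hD' S hlab (fun x => by
    rw [Fintype.sum_prod_type]
    have hrow : ∀ i : Fin k, ∑ t : ZMod m, (if ∀ n, D' ((S (i, t))^[n] x) ((S (i, t))^[n + 1] x)
        then (2 : ℝ) / minimalPeriod (S (i, t)) x else 0) ≤ 1 / k := by
      intro i
      by_cases hQ : ∀ n, D ((σ i)^[n] (f x)) ((σ i)^[n + 1] (f x))
      · obtain ⟨hl0, cc, hc1, hc2⟩ := perm_cycle D (σ i) (f x) hQ
        obtain ⟨h1, h2⟩ := hcyc _ cc hl0 hc1 hc2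
        set l := minimalPeriod (σ i) (f x) with hl
        have hl2 : 2 ≤ l := by omega
        have hcard : (orb (σ i) (f x)).card = l := orb_card _ _
        obtain ⟨h3, h4⟩ := hΦ (orb (σ i) (f x)) (by rw [hcard]; exact hl2)
        have hlR : (0 : ℝ) < l := by exact_mod_cast hl0
        have hterm : ∀ t : ZMod m, (if ∀ n, D' ((S (i, t))^[n] x) ((S (i, t))^[n + 1] x)
            then (2 : ℝ) / minimalPeriod (S (i, t)) x else 0) ≤
            (2 / l) * (1 / addOrderOf (c (orb (σ i) (f x)) t)) := by
          intro t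
          have h5 : l * addOrderOf (c (orb (σ i) (f x)) t) ∣ minimalPeriod (S (i, t)) x := by
            obtain ⟨⟨v, z⟩, rfl⟩ := E.symm.surjective x
            have h6 := skew_period (σ i) (fun v => φ i v t) v z
            have h7 : minimalPeriod (S (i, t)) (E.symm (v, z)) = minimalPeriod (T (i, t)) (v, z) :=
              period_conj E.symm (T (i, t)) (S (i, t)) (fun p => hS (i, t) p) (v, z)
            rw [h7]
            have h8 : ∑ j ∈ range (minimalPeriod (σ i) v), φ i ((σ i)^[j] v) t =
                c (orb (σ i) v) t := by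
              have h9 : ∀ j, φ i ((σ i)^[j] v) t = Φ (orb (σ i) v) ((σ i)^[j] v) t := by
                intro j
                show Φ (orb (σ i) ((σ i)^[j] v)) ((σ i)^[j] v) t = _
                rw [orb_eq (sameCycle_of_iterate (σ i) j v)]
              simp_rw [h9]
              rw [orb_sum (σ i) v (fun w => Φ (orb (σ i) v) w t)]
              rw [hfE] at h3
              exact h3 t
            rw [h8] at h6
            rw [hfE] at hl ⊢
            rw [hl]
            exact h6
          have hpS : 0 < minimalPeriod (S (i, t)) x :=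
            minimalPeriod_pos_of_mem_periodicPts ((S (i, t)).injective.mem_periodicPts _)
          have h6 := Nat.le_of_dvd hpS h5
          have hord : 0 < addOrderOf (c (orb (σ i) (f x)) t) := addOrderOf_pos _
          have hordR : (0 : ℝ) < addOrderOf (c (orb (σ i) (f x)) t) := by exact_mod_cast hord
          have h7 : (2 / l : ℝ) * (1 / addOrderOf (c (orb (σ i) (f x)) t)) =
              2 / (l * addOrderOf (c (orb (σ i) (f x)) t)) := by
            field_simp
          rw [h7]
          have h8 : ((l : ℝ) * addOrderOf (c (orb (σ i) (f x)) t)) ≤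
              minimalPeriod (S (i, t)) x := by exact_mod_cast h6
          split_ifs
          · exact div_le_div_of_nonneg_left (by norm_num) (by positivity) h8
          · positivity
        refine le_trans (sum_le_sum fun t _ => hterm t) ?_
        rw [← mul_sum]
        rw [hcard] at h4
        have h5 : (2 / l : ℝ) * ∑ t, 1 / (addOrderOf (c (orb (σ i) (f x)) t) : ℝ) ≤
            (2 / l) * bd m l := mul_le_mul_of_nonneg_left h4 (by positivity)
        refine h5.trans ?_
        unfold bd
        split_ifs with h6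
        · have h7 := h2 h6.1 h6.2
          have h8 : (2 * k * (m + 1) : ℝ) ≤ m * l := by exact_mod_cast h7
          rw [div_mul_div_comm, div_le_div_iff₀ (by positivity) hkR]
          linarith
        · have h8 : (2 * k : ℝ) ≤ l := by exact_mod_cast h1
          rw [mul_one, div_le_div_iff₀ hlR hkR]
          linarith
      · have hz : ∀ t : ZMod m, (if ∀ n, D' ((S (i, t))^[n] x) ((S (i, t))^[n + 1] x)
            then (2 : ℝ) / minimalPeriod (S (i, t)) x else 0) = 0 := by
          intro t
          rw [if_neg]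
          intro hall
          apply hQ
          intro n
          have h1 := hall n
          have h2 : D (f ((S (i, t))^[n] x)) (f ((S (i, t))^[n + 1] x)) := h1
          rwa [hSn, hSn] at h2
        simp_rw [hz]
        rw [sum_const_zero]
        positivity
    refine le_trans (sum_le_sum fun i _ => hrow i) ?_
    rw [sum_const, card_univ, Fintype.card_fin, nsmul_eq_mul]
    refine le_of_eq ?_
    field_simp)
  have hcard : Fintype.card (Fin k × ZMod m) = k * m := by
    rw [Fintype.card_prod, Fintype.card_fin, ZMod.card]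
  rwa [hcard] at hcov

end Pool.Agent.R448.LP
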