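import Pool.Agent.R448.LDDec

set_option autoImplicit false

/-!
Linear arboricity and permutations: a digraph covered by permutations all of whose cycles are long.
-/

namespace Pool.Agent.R448.LP

open Finset SimpleGraph H931R3.LA Pool.Agent.W111.LAR Function

/-- A digraph with in- and outdegrees at most `k` is covered by `k` permutations. -/
theorem perms {V : Type} [Finite V] (D : V → V → Prop) (k : ℕ)
    (hout : ∀ v, {w | D v w}.ncard ≤ k) (hin : ∀ v, {w | D w v}.ncard ≤ k) :
    ∃ σ : Fin k → Equiv.Perm V, ∀ u v, D u v → ∃ i, σ i u = v := by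
  classical
  obtain ⟨lab, h0, h1, h2⟩ := LD.labels D k hout hin
  have key : ∀ i : Fin k, ∃ s : Equiv.Perm V, ∀ u v, D u v → lab u v = i → s u = v := by
    intro i
    let f : {u // ∃ v, D u v ∧ lab u v = i} → {v // ∃ u, D u v ∧ lab u v = i} :=
      fun u => ⟨Classical.choose u.2, ⟨u.1, Classical.choose_spec u.2⟩⟩
    have hf : ∀ u, D u.1 (f u).1 ∧ lab u.1 (f u).1 = i := fun u => Classical.choose_spec u.2
    have hfb : Function.Bijective f := by
      constructor
      · intro u u' h
        have e1 := hf u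
        have e2 := hf u'
        rw [← h] at e2
        exact Subtype.ext (h2 _ _ _ e1.1 e2.1 (e1.2.trans e2.2.symm))
      · rintro ⟨w, u, hu, hu'⟩
        refine ⟨⟨u, w, hu, hu'⟩, ?_⟩
        have e1 := hf ⟨u, w, hu, hu'⟩
        exact Subtype.ext (h1 _ _ _ e1.1 hu (e1.2.trans hu'.symm))
    refine ⟨(Equiv.ofBijective f hfb).extendSubtype, fun u v huv hl => ?_⟩
    have hp : ∃ v, D u v ∧ lab u v = i := ⟨v, huv, hl⟩
    have e1 : (Equiv.ofBijective f hfb).extendSubtype u = (f ⟨u, hp⟩).1 :=
      Equiv.extendSubtype_apply_of_mem _ u hp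
    rw [e1]
    have e2 := hf ⟨u, hp⟩
    exact h1 _ _ _ e2.1 huv (e2.2.trans hl.symm)
  choose σ hσ using key
  exact ⟨σ, fun u v h => ⟨⟨lab u v, h0 u v h⟩, hσ _ u v h rfl⟩⟩

theorem pair_le {V : Type} (a b : V) : ({a, b} : Set V).ncard ≤ 2 := by
  have h1 := Set.ncard_insert_le a ({b} : Set V)
  rw [Set.ncard_singleton] at h1
  exact h1

open Classical in
/-- **Criterion.**  A digraph `D` covered by permutations `σ i` such that the reciprocals of the
lengths of their cycles through each vertex sum up to at most `1 / 2` (only the cycles contained in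
`D` count). -/
theorem cov_perm {V κ : Type} [Finite V] [Fintype κ] (G : SimpleGraph V) (D : V → V → Prop)
    (hD : ∀ u v, G.Adj u v ↔ D u v ∨ D v u) (σ : κ → Equiv.Perm V)
    (hlab : ∀ u v, D u v → ∃ i, σ i u = v)
    (hload : ∀ v, ∑ i, (if ∀ n, D ((σ i)^[n] v) ((σ i)^[n + 1] v) then
      (2 : ℝ) / minimalPeriod (σ i) v else 0) ≤ 1) :
    Cov G (Fintype.card κ + 1) := by
  have hirr : ∀ v, ¬ D v v := fun v h => G.loopless.irrefl v ((hD v v).2 (Or.inl h))
  choose lab hl using hlab
  let H : κ → SimpleGraph V := fun i =>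
    { Adj := fun u v => (∃ h : D u v, lab u v h = i) ∨ ∃ h : D v u, lab v u h = i
      symm.symm := fun u v h => h.symm
      loopless.irrefl := by
        rintro u (⟨h, _⟩ | ⟨h, _⟩)
        · exact hirr _ h
        · exact hirr _ h }
  have hout : ∀ i u v (h : D u v), lab u v h = i → σ i u = v := by
    intro i u v h e
    subst e
    exact hl u v h
  have hsub : ∀ i v, (H i).neighborSet v ⊆ {σ i v, (σ i).symm v} := by
    rintro i v w (⟨h, e⟩ | ⟨h, e⟩)
    · exact Or.inl (hout i v w h e).symm
    · right
      show w = (σ i).symm v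
      rw [Equiv.eq_symm_apply]
      exact hout i w v h e
  have hdeg : ∀ i v, ((H i).neighborSet v).ncard ≤ 2 := by
    intro i v
    exact (Set.ncard_le_ncard (hsub i v) (Set.toFinite _)).trans (pair_le _ _)
  have harc : ∀ i v, Cyc (H i) v → D v (σ i v) ∧ (H i).Reachable v (σ i v) := by
    intro i v hc
    have h2 : ((H i).neighborSet v).ncard = 2 := hc v (Reachable.refl v)
    have hne : σ i v ≠ (σ i).symm v := by
      intro he
      have h3 := Set.ncard_le_ncard (hsub i v) (Set.toFinite _)
      rw [he, Set.pair_eq_singleton, Set.ncard_singleton] at h3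
      omega
    have heq : (H i).neighborSet v = {σ i v, (σ i).symm v} :=
      Set.eq_of_subset_of_ncard_le (hsub i v) (by rw [h2]; exact pair_le _ _)
        (Set.toFinite _)
    have hadj : (H i).Adj v (σ i v) := by
      have : σ i v ∈ (H i).neighborSet v := by rw [heq]; simp
      exact this
    refine ⟨?_, hadj.reachable⟩
    rcases hadj with ⟨h, _⟩ | ⟨h, e⟩
    · exact h
    · exfalso
      apply hne
      rw [Equiv.eq_symm_apply]
      exact hout i _ _ h e
  have hall : ∀ i v, Cyc (H i) v → ∀ n, (H i).Reachable v ((σ i)^[n] v) ∧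
      D ((σ i)^[n] v) ((σ i)^[n + 1] v) := by
    intro i v hc n
    have hreach : (H i).Reachable v ((σ i)^[n] v) := by
      induction n with
      | zero => exact Reachable.refl v
      | succ n ih =>
        rw [iterate_succ_apply']
        exact ih.trans (harc i _ (hc.trans ih)).2
    refine ⟨hreach, ?_⟩
    rw [iterate_succ_apply']
    exact (harc i _ (hc.trans hreach)).1
  have hper : ∀ i v, Cyc (H i) v → minimalPeriod (σ i) v ≤ csize (H i) v := by
    intro i v hc
    have h3 : Nat.card (Fin (minimalPeriod (σ i) v)) ≤ Nat.card {w | (H i).Reachable v w} := by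
      refine Nat.card_le_card_of_injective
        (fun j => (⟨(σ i)^[j.val] v, (hall i v hc j).1⟩ : {w | (H i).Reachable v w})) ?_
      intro a b hab
      have h4 : (σ i)^[a.val] v = (σ i)^[b.val] v := congrArg Subtype.val hab
      exact Fin.ext (iterate_injOn_Iio_minimalPeriod (f := σ i) (x := v) a.2 b.2 h4)
    rw [Nat.card_fin, Nat.card_coe_set_eq] at h3
    exact h3
  have hpos : ∀ i v, 0 < minimalPeriod (σ i) v := fun i v =>
    minimalPeriod_pos_of_mem_periodicPts ((σ i).injective.mem_periodicPts v)
  have key := cov_of_load H hdeg (fun v => by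
    refine le_trans (sum_le_sum fun i _ => ?_) (hload v)
    by_cases hc : Cyc (H i) v
    · rw [if_pos hc, if_pos (fun n => (hall i v hc n).2)]
      have h4 : (0 : ℝ) < minimalPeriod (σ i) v := by exact_mod_cast hpos i v
      have h5 : (minimalPeriod (σ i) v : ℝ) ≤ csize (H i) v := by exact_mod_cast hper i v hc
      exact div_le_div_of_nonneg_left (by norm_num) h4 h5
    · rw [if_neg hc]
      split_ifs
      · positivity
      · exact le_rfl)
  have hsup : (⨆ i, H i) = G := by
    ext u v
    simp only [iSup_adj]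
    constructor
    · rintro ⟨i, ⟨h, _⟩ | ⟨h, _⟩⟩
      · exact (hD u v).2 (Or.inl h)
      · exact (hD u v).2 (Or.inr h)
    · intro h
      rcases (hD u v).1 h with h1 | h1
      · exact ⟨lab u v h1, Or.inl ⟨h1, rfl⟩⟩
      · exact ⟨lab v u h1, Or.inr ⟨h1, rfl⟩⟩
  rwa [hsup] at key

/-! ### Skew products -/

section skew

variable {E X : Type} [AddCommGroup X] (τ : E → E) (φ : E → X)

/-- The skew product. -/
def skew : E × X → E × X := fun p => (τ p.1, p.2 + φ p.1)

theorem skew_iterate (n : ℕ) (e : E) (x : X) :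
    (skew τ φ)^[n] (e, x) = (τ^[n] e, x + ∑ j ∈ range n, φ (τ^[j] e)) := by
  induction n with
  | zero => simp
  | succ n ih =>
    rw [iterate_succ_apply', ih, skew, iterate_succ_apply', sum_range_succ, add_assoc]

theorem sum_period (e : E) (q : ℕ) :
    ∑ j ∈ range (minimalPeriod τ e * q), φ (τ^[j] e) =
      q • ∑ j ∈ range (minimalPeriod τ e), φ (τ^[j] e) := by
  induction q with
  | zero => simp
  | succ q ih =>
    rw [Nat.mul_succ, sum_range_add, ih, succ_nsmul]
    congr 1
    refine sum_congr rfl fun j _ => ?_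
    congr 1
    rw [add_comm, iterate_add_apply]
    congr 1
    exact (isPeriodicPt_minimalPeriod τ e).mul_const q

theorem skew_period (e : E) (x : X) :
    minimalPeriod τ e * addOrderOf (∑ j ∈ range (minimalPeriod τ e), φ (τ^[j] e)) ∣
      minimalPeriod (skew τ φ) (e, x) := by
  set n := minimalPeriod (skew τ φ) (e, x) with hn
  have h1 : (skew τ φ)^[n] (e, x) = (e, x) := isPeriodicPt_minimalPeriod _ _
  rw [skew_iterate] at h1
  have h2 : τ^[n] e = e := congrArg Prod.fst h1
  have h3 : x + ∑ j ∈ range n, φ (τ^[j] e) = x := congrArg Prod.snd h1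
  have h4 : minimalPeriod τ e ∣ n := IsPeriodicPt.minimalPeriod_dvd h2
  obtain ⟨q, hq⟩ := h4
  rw [hq, sum_period] at h3
  have h5 : q • ∑ j ∈ range (minimalPeriod τ e), φ (τ^[j] e) = 0 := by simpa using h3
  have h6 := addOrderOf_dvd_of_nsmul_eq_zero h5
  rw [hq]
  exact Nat.mul_dvd_mul_left _ h6

end skew

/-- Conjugation does not change periods. -/
theorem period_conj {E W : Type} (P : E ≃ W) (T : E → E) (S : W → W)
    (h : ∀ e, S (P e) = P (T e)) (e : E) : minimalPeriod S (P e) = minimalPeriod T e := by
  have h1 : ∀ n, S^[n] (P e) = P (T^[n] e) := by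
    intro n
    induction n with
    | zero => rfl
    | succ n ih => rw [iterate_succ_apply', ih, h, iterate_succ_apply']
  refine Nat.dvd_antisymm ?_ ?_
  · refine IsPeriodicPt.minimalPeriod_dvd ?_
    show S^[minimalPeriod T e] (P e) = P e
    rw [h1]
    congr 1
    exact isPeriodicPt_minimalPeriod T e
  · refine IsPeriodicPt.minimalPeriod_dvd ?_
    show T^[minimalPeriod S (P e)] e = e
    apply P.injective
    rw [← h1]
    exact isPeriodicPt_minimalPeriod S (P e)

end Pool.Agent.R448.LP
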