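import Pool.Agent.R448.LEuler

set_option autoImplicit false

/-!
Balanced orientations of regular graphs of even degree, given by permutations; greedy colouring;
subgroups of given index.
-/

namespace Pool.Agent.R448.LP

open Finset SimpleGraph H931R3.LA Pool.Agent.W111.LAR Function

/-- A balanced orientation. -/
theorem exists_orient {V : Type} [Finite V] (G : SimpleGraph V) (k : ℕ)
    (hdeg : ∀ v, (G.neighborSet v).ncard = 2 * k) :
    ∃ D : V → V → Prop, (∀ u v, G.Adj u v ↔ D u v ∨ D v u) ∧ (∀ v, {w | D v w}.ncard = k) ∧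
      ∀ v, {w | D w v}.ncard = k := by
  classical
  have := Fintype.ofFinite V
  let E1 := {e : Sym2 V // e ∈ G.edgeSet}
  have : Fintype E1 := Fintype.ofFinite E1
  let p1 : E1 → V := fun e => e.1.out.1
  let q1 : E1 → V := fun e => e.1.out.2
  have hpq : ∀ e : E1, s(p1 e, q1 e) = e.1 := fun e => Quot.out_eq e.1
  have hadj : ∀ e : E1, G.Adj (p1 e) (q1 e) := by
    intro e
    have := e.2
    rw [← hpq e] at this
    exact this
  have real : ∀ v, (univ.filter (fun e => p1 e = v)).card + (univ.filter (fun e => q1 e = v)).card =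
      (G.neighborSet v).ncard := by
    intro v
    rw [← card_union_of_disjoint, Set.ncard_eq_toFinset_card']
    · symm
      refine card_bij (fun w hw => (⟨s(v, w), ?_⟩ : E1)) ?_ ?_ ?_
      · rw [Set.mem_toFinset] at hw
        exact hw
      · intro w hw
        have h1 : s((s(v, w) : Sym2 V).out.1, (s(v, w) : Sym2 V).out.2) = s(v, w) :=
          Quot.out_eq _
        rw [mem_union, mem_filter, mem_filter]
        rcases Sym2.eq_iff.1 h1 with ⟨h2, _⟩ | ⟨_, h2⟩
        · exact Or.inl ⟨mem_univ _, h2⟩
        · exact Or.inr ⟨mem_univ _, h2⟩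
      · intro w hw w' hw' h
        have h1 : s(v, w) = s(v, w') := congrArg (fun e : E1 => e.1) h
        exact Sym2.congr_right.1 h1
      · intro e he
        rw [mem_union, mem_filter, mem_filter] at he
        rcases he with ⟨_, h⟩ | ⟨_, h⟩
        · refine ⟨q1 e, ?_, ?_⟩
          · rw [Set.mem_toFinset, ← h]; exact hadj e
          · apply Subtype.ext
            show s(v, q1 e) = e.1
            rw [← h, hpq]
        · refine ⟨p1 e, ?_, ?_⟩
          · rw [Set.mem_toFinset, ← h]; exact (hadj e).symm
          · apply Subtype.ext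
            show s(v, p1 e) = e.1
            rw [← h, Sym2.eq_swap, hpq]
    · rw [Finset.disjoint_left]
      intro e h1 h2
      exact (hadj e).ne ((mem_filter.1 h1).2.trans (mem_filter.1 h2).2.symm)
  obtain ⟨t, ht1, ht2⟩ := orient p1 q1 k (fun v => by rw [real, hdeg])
  let D : V → V → Prop := fun u v => ∃ e : E1, (if t e then p1 e else q1 e) = u ∧
    (if t e then q1 e else p1 e) = v
  have hD : ∀ u v, G.Adj u v ↔ D u v ∨ D v u := by
    intro u v
    constructor
    · intro h
      have h1 := hpq ⟨s(u, v), h⟩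
      by_cases ht : t ⟨s(u, v), h⟩ = true
      · rcases Sym2.eq_iff.1 h1 with ⟨h2, h3⟩ | ⟨h2, h3⟩
        · exact Or.inl ⟨⟨s(u, v), h⟩, by rw [if_pos ht]; exact h2, by rw [if_pos ht]; exact h3⟩
        · exact Or.inr ⟨⟨s(u, v), h⟩, by rw [if_pos ht]; exact h2, by rw [if_pos ht]; exact h3⟩
      · rcases Sym2.eq_iff.1 h1 with ⟨h2, h3⟩ | ⟨h2, h3⟩
        · exact Or.inr ⟨⟨s(u, v), h⟩, by rw [if_neg ht]; exact h3, by rw [if_neg ht]; exact h2⟩
        · exact Or.inl ⟨⟨s(u, v), h⟩, by rw [if_neg ht]; exact h3, by rw [if_neg ht]; exact h2⟩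
    · have key : ∀ u v, D u v → G.Adj u v := by
        rintro u v ⟨e, h1, h2⟩
        by_cases ht : t e = true
        · rw [if_pos ht] at h1 h2
          rw [← h1, ← h2]; exact hadj e
        · rw [if_neg ht] at h1 h2
          rw [← h1, ← h2]; exact (hadj e).symm
      rintro (h | h)
      · exact key _ _ h
      · exact (key _ _ h).symm
  have hO : ∀ v, {w | D v w}.ncard ≤ k := by
    intro v
    have h1 : {w | D v w} ⊆ ((univ.filter (fun e : E1 => (if t e then p1 e else q1 e) = v)).image
        (fun e => if t e then q1 e else p1 e) : Finset V) := by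
      rintro w ⟨e, h2, h3⟩
      rw [mem_coe, mem_image]
      exact ⟨e, mem_filter.2 ⟨mem_univ _, h2⟩, h3⟩
    refine (Set.ncard_le_ncard h1 (Set.toFinite _)).trans ?_
    rw [Set.ncard_coe_finset]
    exact card_image_le.trans (ht1 v).le
  have hI : ∀ v, {w | D w v}.ncard ≤ k := by
    intro v
    have h1 : {w | D w v} ⊆ ((univ.filter (fun e : E1 => (if t e then q1 e else p1 e) = v)).image
        (fun e => if t e then p1 e else q1 e) : Finset V) := by
      rintro w ⟨e, h2, h3⟩
      rw [mem_coe, mem_image]
      exact ⟨e, mem_filter.2 ⟨mem_univ _, h3⟩, h2⟩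
    refine (Set.ncard_le_ncard h1 (Set.toFinite _)).trans ?_
    rw [Set.ncard_coe_finset]
    exact card_image_le.trans (ht2 v).le
  have hsum : ∀ v, 2 * k ≤ {w | D v w}.ncard + {w | D w v}.ncard := by
    intro v
    rw [← hdeg v]
    have h1 : G.neighborSet v ⊆ {w | D v w} ∪ {w | D w v} := fun w hw => (hD v w).1 hw
    exact (Set.ncard_le_ncard h1 (Set.toFinite _)).trans (Set.ncard_union_le _ _)
  refine ⟨D, hD, fun v => ?_, fun v => ?_⟩
  · have := hO v; have := hI v; have := hsum v; omega
  · have := hO v; have := hI v; have := hsum v; omega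

/-- Permutations `σ i` such that the edges of `G` are the pairs `{v, σ i v}`. -/
theorem exists_sigma {V : Type} [Finite V] (G : SimpleGraph V) (k : ℕ)
    (hdeg : ∀ v, (G.neighborSet v).ncard = 2 * k) (K : Type) [Finite K] (hK : Nat.card K = k) :
    ∃ σ : K → Equiv.Perm V, ∀ u v, G.Adj u v ↔ (∃ i, σ i u = v) ∨ ∃ i, σ i v = u := by
  classical
  obtain ⟨D, hD, hO, hI⟩ := exists_orient G k hdeg
  obtain ⟨s, hs⟩ := perms D k (fun v => (hO v).le) (fun v => (hI v).le)
  have hDs : ∀ u v, D u v ↔ ∃ i, s i u = v := by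
    intro u v
    refine ⟨hs u v, ?_⟩
    rintro ⟨i, rfl⟩
    have h1 : {w | D u w} ⊆ ((univ.image (fun i => s i u) : Finset V) : Set V) := by
      intro w hw
      obtain ⟨j, hj⟩ := hs u w hw
      rw [mem_coe, mem_image]
      exact ⟨j, mem_univ _, hj⟩
    have h2 : ((univ.image (fun i => s i u) : Finset V) : Set V).ncard ≤ k := by
      rw [Set.ncard_coe_finset]
      exact card_image_le.trans (by rw [card_univ, Fintype.card_fin])
    have h3 : {w | D u w} = ((univ.image (fun i => s i u) : Finset V) : Set V) :=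
      Set.eq_of_subset_of_ncard_le h1 (by rw [hO]; exact h2) (Set.toFinite _)
    have h4 : s i u ∈ {w | D u w} := by
      rw [h3, mem_coe, mem_image]
      exact ⟨i, mem_univ _, rfl⟩
    exact h4
  have e : K ≃ Fin k := by
    rw [← hK]
    exact Finite.equivFin K
  refine ⟨fun i => s (e i), fun u v => ?_⟩
  rw [hD, hDs, hDs]
  constructor
  · rintro (⟨i, hi⟩ | ⟨i, hi⟩)
    · exact Or.inl ⟨e.symm i, by
        show s (e (e.symm i)) u = v
        rw [Equiv.apply_symm_apply]; exact hi⟩
    · exact Or.inr ⟨e.symm i, by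
        show s (e (e.symm i)) v = u
        rw [Equiv.apply_symm_apply]; exact hi⟩
  · rintro (⟨i, hi⟩ | ⟨i, hi⟩)
    · exact Or.inl ⟨e i, hi⟩
    · exact Or.inr ⟨e i, hi⟩

/-- Greedy colouring. -/
theorem colorable_of_deg {V : Type} [Finite V] (G : SimpleGraph V) (Δ : ℕ)
    (hdeg : ∀ v, (G.neighborSet v).ncard ≤ Δ) : G.Colorable (Δ + 1) := by
  classical
  have := Fintype.ofFinite V
  have key : ∀ s : Finset V, ∃ c : V → Fin (Δ + 1), ∀ u ∈ s, ∀ v ∈ s, G.Adj u v → c u ≠ c v := by
    intro s
    induction s using Finset.induction_on with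
    | empty => exact ⟨fun _ => 0, by simp⟩
    | insert x s hx ih =>
      obtain ⟨c, hc⟩ := ih
      have h1 : ((G.neighborFinset x).image c).card < (univ : Finset (Fin (Δ + 1))).card := by
        rw [card_univ, Fintype.card_fin]
        refine lt_of_le_of_lt card_image_le ?_
        have h2 := hdeg x
        rw [Set.ncard_eq_toFinset_card'] at h2
        have h3 : (G.neighborFinset x).card = (G.neighborSet x).toFinset.card := rfl
        omega
      obtain ⟨a, _, ha⟩ := exists_mem_notMem_of_card_lt_card h1
      have ha' : ∀ y, G.Adj x y → c y ≠ a := by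
        intro y hy hya
        exact ha (mem_image.2 ⟨y, by simpa using hy, hya⟩)
      refine ⟨Function.update c x a, ?_⟩
      intro u hu v hv huv
      rcases mem_insert.1 hu with rfl | hu'
      · have hvu : v ≠ u := huv.ne'
        rw [Function.update_self, Function.update_of_ne hvu]
        exact (ha' v huv).symm
      · have hux : u ≠ x := fun h => hx (h ▸ hu')
        rcases mem_insert.1 hv with rfl | hv'
        · rw [Function.update_self, Function.update_of_ne hux]
          exact ha' u huv.symm
        · have hvx : v ≠ x := fun h => hx (h ▸ hv')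
          rw [Function.update_of_ne hux, Function.update_of_ne hvx]
          exact hc u hu' v hv' huv
  obtain ⟨c, hc⟩ := key univ
  exact ⟨Coloring.mk c (fun {u v} h => hc u (mem_univ _) v (mem_univ _) h)⟩

/-- A finite abelian group has a subgroup of each index dividing its order. -/
theorem exists_index (k : ℕ) : ∀ (n : ℕ) (A : Type) [AddCommGroup A] [Finite A],
    Nat.card A = n → k ∣ n → ∃ Z : AddSubgroup A, Z.index = k := by
  intro n
  induction n using Nat.strong_induction_on with
  | _ n ih =>
    intro A _ _ hA hkn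
    have hn : 0 < n := by rw [← hA]; exact Nat.card_pos
    by_cases hkn' : n = k
    · exact ⟨⊥, by rw [AddSubgroup.index_bot, hA, hkn']⟩
    · obtain ⟨q, hq⟩ := hkn
      have hq1 : q ≠ 1 := by
        rintro rfl
        exact hkn' (by rw [hq, Nat.mul_one])
      obtain ⟨p, hp, hpq⟩ := Nat.exists_prime_and_dvd hq1
      obtain ⟨q', hq'⟩ := hpq
      have hfact : Fact p.Prime := ⟨hp⟩
      obtain ⟨x, hx⟩ := exists_prime_addOrderOf_dvd_card' (G := A) p (by
        rw [hA, hq, hq']
        exact ⟨k * q', by ring⟩)
      have h1 : Nat.card (AddSubgroup.zmultiples x) = p := by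
        rw [Nat.card_zmultiples, hx]
      have h2 := AddSubgroup.card_mul_index (AddSubgroup.zmultiples x)
      rw [h1, hA] at h2
      have h3 : (AddSubgroup.zmultiples x).index = k * q' := by
        have h4 : p * (AddSubgroup.zmultiples x).index = p * (k * q') := by
          rw [h2, hq, hq']; ring
        exact Nat.eq_of_mul_eq_mul_left hp.pos h4
      have h4 : Nat.card (A ⧸ AddSubgroup.zmultiples x) = k * q' := by
        rw [← AddSubgroup.index_eq_card]; exact h3
      have h5 : k * q' < n := by
        have h6 : n = p * (k * q') := by rw [← h2, h3]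
        have h7 : 0 < k * q' := by
          rcases Nat.eq_zero_or_pos (k * q') with h | h
          · rw [h] at h6; omega
          · exact h
        rw [h6]
        have := hp.two_le
        nlinarith
      obtain ⟨Z, hZ⟩ := ih (k * q') h5 (A ⧸ AddSubgroup.zmultiples x) h4 ⟨q', rfl⟩
      refine ⟨Z.comap (QuotientAddGroup.mk' _), ?_⟩
      rw [AddSubgroup.index_comap_of_surjective _ (QuotientAddGroup.mk'_surjective _)]
      exact hZ

end Pool.Agent.R448.LP
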