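import Pool.Agent.R448.LBlow

set_option autoImplicit false

/-!
Linear arboricity of blow-ups of regular graphs.
-/

namespace Pool.Agent.R448.LP

open Finset SimpleGraph H931R3.LA Pool.Agent.W111.LAR Function

/-- Fibres of size `m`. -/
theorem fibre_equiv {V W X : Type} [Finite W] [Finite X] (f : W → V)
    (hf : ∀ v, {x | f x = v}.ncard = Nat.card X) : ∃ E : W ≃ V × X, ∀ x, (E x).1 = f x := by
  have heq : ∀ v, Nonempty ({x // f x = v} ≃ X) := by
    intro v
    refine Finite.card_eq.1 ?_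
    have h1 := hf v
    rw [← Nat.card_coe_set_eq] at h1
    exact h1
  exact ⟨(Equiv.sigmaFiberEquiv f).symm.trans
    ((Equiv.sigmaCongrRight (fun v => (heq v).some)).trans (Equiv.sigmaEquivProd V X)),
    fun x => rfl⟩

theorem reg_comap {V W : Type} [Finite V] [Finite W] (G : SimpleGraph V) (d m : ℕ)
    (hdeg : ∀ v, (G.neighborSet v).ncard = d) (f : W → V)
    (hf : ∀ v, {x | f x = v}.ncard = m) (x : W) :
    ((G.comap f).neighborSet x).ncard = d * m := by
  obtain ⟨E, hE⟩ := fibre_equiv (X := Fin m) f (by simpa using hf)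
  have h1 : (G.comap f).neighborSet x = E ⁻¹' (G.neighborSet (f x) ×ˢ Set.univ) := by
    ext y
    simp only [Set.mem_preimage, Set.mem_prod, Set.mem_univ, and_true, hE]
    rfl
  rw [h1]
  have h2 : (E ⁻¹' (G.neighborSet (f x) ×ˢ (Set.univ : Set (Fin m)))).ncard =
      (G.neighborSet (f x) ×ˢ (Set.univ : Set (Fin m))).ncard := by
    rw [← Set.ncard_image_of_injective _ E.injective, Set.image_preimage_eq _ E.surjective]
  rw [h2, Set.ncard_prod, hdeg, Set.ncard_univ, Nat.card_fin]

theorem blow_even {V : Type} [Finite V] [Nonempty V] (G : SimpleGraph V) (k m c : ℕ) (hk : 0 < k)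
    (hm : 0 < m) (hkm : k ∣ m) (hpp : ∀ p, p.Prime → p ∣ m → c ≤ p ^ m.factorization p)
    (hdeg : ∀ v, (G.neighborSet v).ncard = 2 * k) (hcol : G.Colorable c)
    {W : Type} [Finite W] (f : W → V) (hf : ∀ v, {x | f x = v}.ncard = m) :
    la (G.comap f) = k * m + 1 := by
  classical
  obtain ⟨R, _, _, hR, a, ha⟩ := exists_ring m c hm hpp
  obtain ⟨C⟩ := hcol
  obtain ⟨Z, hZ⟩ := exists_index k (Nat.card R) R rfl (by rw [hR]; exact hkm)
  have h1 := cov_blow G k hk hdeg R (fun v => a (C v)) (fun u v h => ha _ _ (C.valid h)) Z hZ W f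
    (by rw [hR]; exact hf)
  rw [hR] at h1
  have hW : Nonempty W := by
    obtain ⟨v⟩ := ‹Nonempty V›
    have h2 : 0 < {x | f x = v}.ncard := by rw [hf]; exact hm
    obtain ⟨x, _⟩ := (Set.ncard_pos (Set.toFinite _)).1 h2
    exact ⟨x⟩
  have h3 : (2 * (k * m) + 2) / 2 = k * m + 1 := by omega
  rw [← h3] at h1 ⊢
  refine la_eq_of_cov ?_ (fun x => ?_) h1
  · have := Nat.mul_pos hk hm; omega
  · rw [reg_comap G (2 * k) m hdeg f hf]; ring

theorem blow_any {V : Type} [Finite V] [Nonempty V] (G : SimpleGraph V) (d m c : ℕ) (hd : 0 < d)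
    (hm : 0 < m) (hdm : d ∣ m) (hpp : ∀ p, p.Prime → p ∣ m → c ≤ p ^ m.factorization p)
    (hdeg : ∀ v, (G.neighborSet v).ncard = d) (hcol : G.Colorable c)
    {W : Type} [Finite W] (f : W → V) (hf : ∀ v, {x | f x = v}.ncard = 2 * m) :
    la (G.comap f) = d * m + 1 := by
  classical
  let f₂ : V × Bool → V := Prod.fst
  let G₂ : SimpleGraph (V × Bool) := G.comap f₂
  have hf₂ : ∀ v, {x | f₂ x = v}.ncard = 2 := by
    intro v
    have h1 : {x | f₂ x = v} = ({v} : Set V) ×ˢ (Set.univ : Set Bool) := by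
      ext ⟨a, b⟩
      simp [f₂]
    rw [h1, Set.ncard_prod, Set.ncard_singleton, Set.ncard_univ]
    simp
  have hdeg₂ : ∀ v, (G₂.neighborSet v).ncard = 2 * d := by
    intro v
    rw [reg_comap G d 2 hdeg f₂ hf₂, mul_comm]
  have hcol₂ : G₂.Colorable c := by
    obtain ⟨C⟩ := hcol
    exact ⟨Coloring.mk (fun x => C (f₂ x)) (fun {u v} h => C.valid h)⟩
  obtain ⟨E, hE⟩ := fibre_equiv (X := Bool × Fin m) f (by
    intro v
    rw [hf]
    simp)
  let g : W → V × Bool := fun x => ((E x).1, (E x).2.1)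
  have hg : ∀ v, {x | g x = v}.ncard = m := by
    rintro ⟨v, b⟩
    rw [← Nat.card_coe_set_eq]
    have e : {x | g x = (v, b)} ≃ Fin m :=
      { toFun := fun x => (E x.1).2.2
        invFun := fun j => ⟨E.symm (v, (b, j)), by
          show ((E (E.symm (v, (b, j)))).1, (E (E.symm (v, (b, j)))).2.1) = (v, b)
          rw [Equiv.apply_symm_apply]⟩
        left_inv := by
          rintro ⟨x, hx⟩
          apply Subtype.ext
          show E.symm (v, (b, (E x).2.2)) = x
          rw [Equiv.symm_apply_eq]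
          have h1 : (E x).1 = v := congrArg Prod.fst hx
          have h2 : (E x).2.1 = b := congrArg Prod.snd hx
          rw [← h1, ← h2]
        right_inv := by
          intro j
          show (E (E.symm (v, (b, j)))).2.2 = j
          rw [Equiv.apply_symm_apply] }
    rw [Nat.card_congr e, Nat.card_fin]
  have h1 := blow_even G₂ d m c hd hm hdm hpp hdeg₂ hcol₂ g hg
  have h2 : G₂.comap g = G.comap f := by
    ext x y
    show G.Adj (E x).1 (E y).1 ↔ G.Adj (f x) (f y)
    rw [hE, hE]
  rwa [h2] at h1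

/-- For each degree there is a number such that the conjecture holds for the blow-ups by its
multiples. -/
theorem blow_all (r : ℕ) (hr : 0 < r) : ∃ M : ℕ, 0 < M ∧ ∀ m, 0 < m → M ∣ m →
    ∀ (V : Type) [Finite V] [Nonempty V] (G : SimpleGraph V), (∀ v, (G.neighborSet v).ncard = r) →
      ∀ (W : Type) [Finite W] (f : W → V), (∀ v, {x | f x = v}.ncard = m) →
        la (G.comap f) = (r * m + 2) / 2 := by
  refine ⟨2 * (r + 1).factorial ^ (r + 1), by positivity, ?_⟩
  rintro m hm ⟨q, hq⟩ V _ _ G hreg W _ f hf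
  set m' := (r + 1).factorial ^ (r + 1) * q with hm'
  have hmm : m = 2 * m' := by rw [hq, hm']; ring
  have hm'pos : 0 < m' := by omega
  have h1 := blow_any G r m' (r + 1) hr hm'pos
    (by
      refine Dvd.dvd.mul_right ?_ q
      exact dvd_pow (Nat.dvd_factorial hr (Nat.le_succ r)) (Nat.succ_ne_zero r))
    (by
      intro p hp hpm
      rcases Nat.lt_or_ge (r + 1) p with h | h
      · have h2 : 1 ≤ m'.factorization p :=
          (Nat.Prime.factorization_pos_of_dvd hp hm'pos.ne' hpm)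
        calc r + 1 ≤ p ^ 1 := by rw [pow_one]; omega
          _ ≤ p ^ m'.factorization p := Nat.pow_le_pow_right hp.pos h2
      · have h2 : p ^ (r + 1) ∣ m' :=
          Dvd.dvd.mul_right (pow_dvd_pow_of_dvd (Nat.dvd_factorial hp.pos h) _) q
        have h3 : r + 1 ≤ m'.factorization p :=
          (hp.pow_dvd_iff_le_factorization hm'pos.ne').1 h2
        calc r + 1 ≤ 2 ^ (r + 1) := (Nat.lt_two_pow_self).le
          _ ≤ p ^ (r + 1) := Nat.pow_le_pow_left hp.two_le _
          _ ≤ p ^ m'.factorization p := Nat.pow_le_pow_right hp.pos h3)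
    hreg (colorable_of_deg G r (fun v => (hreg v).le)) f (by rw [← hmm]; exact hf)
  rw [h1, hmm]
  have h2 : r * (2 * m') + 2 = 2 * (r * m' + 1) := by ring
  rw [h2, Nat.mul_div_cancel_left _ (by norm_num)]

end Pool.Agent.R448.LP
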