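import Pool.Agent.R448.LTop

set_option autoImplicit false

/-!
Families of permutations of `ℤ/m` whose sums are constant (or almost constant).
-/

namespace Pool.Agent.R448.LP

open Finset Function

/-- `n` permutations of `ℤ/m` with sum `c`. -/
def PS (m n : ℕ) (c : ZMod m → ZMod m) : Prop :=
  ∃ φ : Fin n → Equiv.Perm (ZMod m), ∀ t, ∑ i, φ i t = c t

theorem PS.step {m n : ℕ} {c : ZMod m → ZMod m} (h : PS m n c) : PS m (n + 2) c := by
  obtain ⟨φ, hφ⟩ := h
  refine ⟨Fin.cons (Equiv.refl _) (Fin.cons (Equiv.neg _) φ), fun t => ?_⟩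
  rw [Fin.sum_univ_succ, Fin.sum_univ_succ]
  simp only [Fin.cons_zero, Fin.cons_succ]
  rw [hφ]
  simp

theorem PS.steps {m n : ℕ} {c : ZMod m → ZMod m} (h : PS m n c) (p : ℕ) : PS m (n + 2 * p) c := by
  induction p with
  | zero => exact h
  | succ p ih => exact ih.step

theorem PS.two (m : ℕ) : PS m 2 (fun _ => 1) := by
  refine ⟨Fin.cons (Equiv.addRight 1) (Fin.cons (Equiv.neg _) Fin.elim0), fun t => ?_⟩
  rw [Fin.sum_univ_succ, Fin.sum_univ_succ]
  simp

theorem PS.three_odd (m : ℕ) (hm : Odd m) : PS m 3 (fun _ => 1) := by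
  have hu : IsUnit (-2 : ZMod m) := by
    rw [IsUnit.neg_iff]
    have h1 : IsUnit ((2 : ℕ) : ZMod m) := (ZMod.isUnit_iff_coprime 2 m).2
      (Nat.coprime_two_left.2 hm)
    exact_mod_cast h1
  obtain ⟨u, hu⟩ := hu
  refine ⟨Fin.cons (Equiv.addRight 1) (Fin.cons (Equiv.refl _) (Fin.cons (Units.mulLeft u)
    Fin.elim0)), fun t => ?_⟩
  rw [Fin.sum_univ_succ, Fin.sum_univ_succ, Fin.sum_univ_succ]
  simp only [Fin.cons_zero, Fin.cons_succ]
  simp only [Equiv.coe_addRight, Equiv.refl_apply, Units.mulLeft_apply, hu]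
  simp
  ring

/-- The exceptional value. -/
def exc (q : ℕ) (t : ZMod (2 * q)) : ZMod (2 * q) :=
  if t.val = 2 * q - 1 then ((q + 1 : ℕ) : ZMod (2 * q)) else 1

theorem PS.three_even (q : ℕ) (hq : 0 < q) : PS (2 * q) 3 (exc q) := by
  have : NeZero (2 * q) := ⟨by omega⟩
  have hval : ∀ t : ZMod (2 * q), t.val < 2 * q := fun t => ZMod.val_lt t
  have hvinj : ∀ s t : ZMod (2 * q), s.val = t.val → s = t := fun s t h =>
    ZMod.val_injective _ h
  let b : ZMod (2 * q) → ℕ := fun t => t.val / 2 + q * (t.val % 2)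
  let g : ZMod (2 * q) → ℕ := fun t =>
    if t.val = 2 * q - 1 then q + 1 else t.val / 2 + 1 + (t.val % 2) * (1 + q)
  have hbinj : Function.Injective (fun t => ((b t : ℕ) : ZMod (2 * q))) := by
    intro s t h
    have h1 : ∀ t, b t < 2 * q := by
      intro t
      have h2 := hval t
      rcases Nat.mod_two_eq_zero_or_one t.val with h3 | h3
      · show t.val / 2 + q * (t.val % 2) < 2 * q
        rw [h3]; omega
      · show t.val / 2 + q * (t.val % 2) < 2 * q
        rw [h3]; omega
    have h2 : b s = b t := by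
      have h3 := (ZMod.natCast_eq_natCast_iff' _ _ _).1 h
      rwa [Nat.mod_eq_of_lt (h1 s), Nat.mod_eq_of_lt (h1 t)] at h3
    apply hvinj
    have hs := hval s
    have ht := hval t
    have h3 : s.val / 2 + q * (s.val % 2) = t.val / 2 + q * (t.val % 2) := h2
    rcases Nat.mod_two_eq_zero_or_one s.val with e1 | e1 <;>
    rcases Nat.mod_two_eq_zero_or_one t.val with e2 | e2 <;> rw [e1, e2] at h3 <;> omega
  have hginj : Function.Injective (fun t => ((g t : ℕ) : ZMod (2 * q))) := by
    intro s t h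
    have h1 : ∀ t, 1 ≤ g t ∧ g t ≤ 2 * q := by
      intro t
      have h2 := hval t
      show 1 ≤ (if t.val = 2 * q - 1 then q + 1 else t.val / 2 + 1 + (t.val % 2) * (1 + q)) ∧
        (if t.val = 2 * q - 1 then q + 1 else t.val / 2 + 1 + (t.val % 2) * (1 + q)) ≤ 2 * q
      split_ifs with h4
      · omega
      · rcases Nat.mod_two_eq_zero_or_one t.val with h3 | h3
        · rw [h3]; omega
        · rw [h3]; omega
    have h2 : g s = g t := by
      have h3 := (ZMod.natCast_eq_natCast_iff' _ _ _).1 h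
      have hs := h1 s
      have ht := h1 t
      rcases Nat.lt_or_ge (g s) (2 * q) with h4 | h4
      · rcases Nat.lt_or_ge (g t) (2 * q) with h5 | h5
        · rwa [Nat.mod_eq_of_lt h4, Nat.mod_eq_of_lt h5] at h3
        · have h6 : g t = 2 * q := by omega
          rw [h6, Nat.mod_self, Nat.mod_eq_of_lt h4] at h3
          omega
      · have h6 : g s = 2 * q := by omega
        rcases Nat.lt_or_ge (g t) (2 * q) with h5 | h5
        · rw [h6, Nat.mod_self, Nat.mod_eq_of_lt h5] at h3
          omega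
        · omega
    apply hvinj
    have hs := hval s
    have ht := hval t
    have h3 : (if s.val = 2 * q - 1 then q + 1 else s.val / 2 + 1 + (s.val % 2) * (1 + q)) =
      if t.val = 2 * q - 1 then q + 1 else t.val / 2 + 1 + (t.val % 2) * (1 + q) := h2
    rcases Nat.mod_two_eq_zero_or_one s.val with e1 | e1 <;>
    rcases Nat.mod_two_eq_zero_or_one t.val with e2 | e2 <;> rw [e1, e2] at h3 <;>
    split_ifs at h3 <;> omega
  let B : Equiv.Perm (ZMod (2 * q)) := Equiv.ofBijective _ (Finite.injective_iff_bijective.1 hbinj)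
  let C : Equiv.Perm (ZMod (2 * q)) := Equiv.ofBijective _ (Finite.injective_iff_bijective.1 hginj)
  refine ⟨Fin.cons (Equiv.neg _) (Fin.cons B (Fin.cons C Fin.elim0)), fun t => ?_⟩
  rw [Fin.sum_univ_succ, Fin.sum_univ_succ, Fin.sum_univ_succ]
  simp only [Fin.cons_zero, Fin.cons_succ]
  have hBt : B t = ((b t : ℕ) : ZMod (2 * q)) := rfl
  have hCt : C t = ((g t : ℕ) : ZMod (2 * q)) := rfl
  have ht : ((t.val : ℕ) : ZMod (2 * q)) = t := ZMod.natCast_zmod_val t
  have h2q : ((2 * q : ℕ) : ZMod (2 * q)) = 0 := ZMod.natCast_self _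
  have hsum : ∀ e : ℕ, (e + t.val) % (2 * q) = (b t + g t) % (2 * q) →
      (Equiv.neg _) t + (B t + (C t + ∑ i : Fin 0, (Fin.elim0 i : Equiv.Perm (ZMod (2 * q))) t)) =
        ((e : ℕ) : ZMod (2 * q)) := by
    intro e he
    have h1 : (((e + t.val : ℕ)) : ZMod (2 * q)) = ((b t + g t : ℕ) : ZMod (2 * q)) :=
      (ZMod.natCast_eq_natCast_iff' _ _ _).2 he
    push_cast at h1
    rw [ht] at h1
    rw [hBt, hCt]
    simp only [univ_eq_empty, sum_empty, add_zero, Equiv.neg_apply]
    linear_combination -h1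
  have hv := hval t
  rw [exc]
  split_ifs with h1
  · refine hsum (q + 1) ?_
    have h2 : b t = t.val / 2 + q * (t.val % 2) := rfl
    have h3 : g t = q + 1 := if_pos h1
    have h4 : t.val % 2 = 1 := by omega
    rw [h2, h3, h4]
    congr 1
    omega
  · have h5 := hsum 1 (by
      have h2 : b t = t.val / 2 + q * (t.val % 2) := rfl
      have h3 : g t = t.val / 2 + 1 + (t.val % 2) * (1 + q) := if_neg h1
      rw [h2, h3]
      rcases Nat.mod_two_eq_zero_or_one t.val with h4 | h4
      · rw [h4]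
        congr 1
        omega
      · rw [h4]
        have h6 : t.val / 2 + q * 1 + (t.val / 2 + 1 + 1 * (1 + q)) = (1 + t.val) + 2 * q := by
          omega
        rw [h6, Nat.add_mod_right])
    rw [h5]
    simp

/-- The sum of the reciprocals of the orders. -/
theorem order_sum_one (m : ℕ) [NeZero m] :
    ∑ t : ZMod m, (1 : ℝ) / addOrderOf ((fun _ => 1 : ZMod m → ZMod m) t) = 1 := by
  simp only [ZMod.addOrderOf_one]
  rw [sum_const, card_univ, ZMod.card, nsmul_eq_mul]
  have : (m : ℝ) ≠ 0 := by exact_mod_cast NeZero.ne m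
  field_simp

theorem order_exc (q : ℕ) (hq : 0 < q) :
    2 * q ≤ (if Even q then 1 else 2) * addOrderOf ((q + 1 : ℕ) : ZMod (2 * q)) := by
  rw [ZMod.addOrderOf_coe _ (by omega)]
  set d := Nat.gcd (2 * q) (q + 1) with hd
  have h1 : d ∣ 2 * q := Nat.gcd_dvd_left _ _
  have h2 : d ∣ q + 1 := Nat.gcd_dvd_right _ _
  have h3 : d ∣ 2 := by
    have h4 : d ∣ 2 * (q + 1) := Dvd.dvd.mul_left h2 2
    have h5 : 2 * (q + 1) - 2 * q = 2 := by omega
    rw [← h5]
    exact Nat.dvd_sub h4 h1
  have h4 : d ≤ 2 := Nat.le_of_dvd (by norm_num) h3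
  have h5 : 0 < d := Nat.pos_of_dvd_of_pos h3 (by norm_num)
  have h6 : d * (2 * q / d) = 2 * q := Nat.mul_div_cancel' h1
  by_cases he : Even q
  · rw [if_pos he]
    have h7 : d ≠ 2 := by
      intro h8
      rw [h8] at h2
      obtain ⟨a, ha⟩ := he
      omega
    have h8 : d = 1 := by omega
    rw [h8] at h6 ⊢
    omega
  · rw [if_neg he]
    calc 2 * q = d * (2 * q / d) := h6.symm
      _ ≤ 2 * (2 * q / d) := Nat.mul_le_mul_right _ h4

/-- The bound for the sum of the reciprocals of the orders. -/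
noncomputable def bd (m n : ℕ) : ℝ := if m % 4 = 2 ∧ Odd n then ((m : ℝ) + 1) / m else 1

theorem one_le_bd (m n : ℕ) [NeZero m] : 1 ≤ bd m n := by
  have h : (0 : ℝ) < m := by exact_mod_cast Nat.pos_of_ne_zero (NeZero.ne m)
  unfold bd
  split_ifs
  · rw [le_div_iff₀ h]; linarith
  · exact le_rfl

theorem twist (m n : ℕ) [NeZero m] (hn : 2 ≤ n) : ∃ c : ZMod m → ZMod m, PS m n c ∧
    ∑ t, (1 : ℝ) / addOrderOf (c t) ≤ bd m n := by
  classical
  rcases Nat.even_or_odd n with he | ho
  · obtain ⟨p, hp⟩ := he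
    have h1 : n = 2 + 2 * (p - 1) := by omega
    refine ⟨fun _ => 1, h1 ▸ (PS.two m).steps (p - 1), ?_⟩
    rw [order_sum_one m]
    exact one_le_bd m n
  · obtain ⟨p, hp⟩ := ho
    have h1 : n = 3 + 2 * (p - 1) := by omega
    rcases Nat.even_or_odd m with hme | hmo
    · obtain ⟨q, hq⟩ := hme
      have hm2 : m = 2 * q := by omega
      subst hm2
      have hq0 : 0 < q := by
        have := NeZero.ne (2 * q)
        omega
      refine ⟨exc q, h1 ▸ (PS.three_even q hq0).steps (p - 1), ?_⟩
      have hm0 : (0 : ℝ) < (2 * q : ℕ) := by exact_mod_cast (by omega : 0 < 2 * q)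
      have hqR : (0 : ℝ) < q := by exact_mod_cast hq0
      have hord := order_exc q hq0
      have hpos : 0 < addOrderOf ((q + 1 : ℕ) : ZMod (2 * q)) := addOrderOf_pos _
      have hposR : (0 : ℝ) < addOrderOf ((q + 1 : ℕ) : ZMod (2 * q)) := by exact_mod_cast hpos
      have hterm : ∀ t : ZMod (2 * q), (1 : ℝ) / addOrderOf (exc q t) ≤
          1 / (2 * q : ℕ) + (if t = ((2 * q - 1 : ℕ) : ZMod (2 * q)) then
            (bd (2 * q) n - 1) else 0) := by
        intro t
        unfold exc
        by_cases ht : t.val = 2 * q - 1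
        · have ht' : t = ((2 * q - 1 : ℕ) : ZMod (2 * q)) := by
            rw [← ht, ZMod.natCast_zmod_val]
          rw [if_pos ht, if_pos ht']
          by_cases heq : Even q
          · rw [if_pos heq, one_mul] at hord
            have h2 : ((2 * q : ℕ) : ℝ) ≤ addOrderOf ((q + 1 : ℕ) : ZMod (2 * q)) := by
              exact_mod_cast hord
            have h3 : (1 : ℝ) / addOrderOf ((q + 1 : ℕ) : ZMod (2 * q)) ≤ 1 / (2 * q : ℕ) :=
              one_div_le_one_div_of_le hm0 h2
            have h4 := one_le_bd (2 * q) n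
            linarith
          · rw [if_neg heq] at hord
            have h2 : ((2 * q : ℕ) : ℝ) ≤ 2 * addOrderOf ((q + 1 : ℕ) : ZMod (2 * q)) := by
              exact_mod_cast hord
            have h3 : bd (2 * q) n = ((2 * q : ℕ) + 1 : ℝ) / (2 * q : ℕ) := by
              unfold bd
              rw [if_pos]
              refine ⟨?_, ⟨p, hp⟩⟩
              rw [Nat.not_even_iff_odd] at heq
              obtain ⟨a, ha⟩ := heq
              omega
            rw [h3]
            have h4 : (1 : ℝ) / (2 * q : ℕ) + (((2 * q : ℕ) + 1 : ℝ) / (2 * q : ℕ) - 1) =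
                2 / (2 * q : ℕ) := by
              field_simp
              ring
            rw [h4, div_le_div_iff₀ hposR hm0]
            linarith
        · have ht' : t ≠ ((2 * q - 1 : ℕ) : ZMod (2 * q)) := by
            intro h
            apply ht
            rw [h, ZMod.val_natCast, Nat.mod_eq_of_lt (by omega)]
          rw [if_neg ht, if_neg ht', ZMod.addOrderOf_one]
          linarith
      refine le_trans (sum_le_sum fun t _ => hterm t) ?_
      rw [sum_add_distrib, sum_ite_eq' univ, if_pos (mem_univ _), sum_const, card_univ, ZMod.card,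
        nsmul_eq_mul]
      have h2 : ((2 * q : ℕ) : ℝ) * (1 / (2 * q : ℕ)) = 1 := by field_simp
      rw [h2]
      linarith
    · refine ⟨fun _ => 1, h1 ▸ (PS.three_odd m hmo).steps (p - 1), ?_⟩
      rw [order_sum_one m]
      exact one_le_bd m n

/-- The version for finite sets of a type. -/
theorem twist_set {V : Type} [DecidableEq V] (m : ℕ) [NeZero m] (O : Finset V) (hO : 2 ≤ O.card) :
    ∃ (φ : V → Equiv.Perm (ZMod m)) (c : ZMod m → ZMod m), (∀ t, ∑ w ∈ O, φ w t = c t) ∧
      ∑ t, (1 : ℝ) / addOrderOf (c t) ≤ bd m O.card := by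
  obtain ⟨c, ⟨φ, hφ⟩, hc⟩ := twist m O.card hO
  refine ⟨fun w => if h : w ∈ O then φ (O.equivFin ⟨w, h⟩) else Equiv.refl _, c, fun t => ?_, hc⟩
  rw [← hφ t, ← sum_coe_sort O, ← O.equivFin.sum_comp]
  refine sum_congr rfl fun w _ => ?_
  simp

end Pool.Agent.R448.LP
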