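import Mathlib
import Pool.Agent.R448.Cover
import Pool.Agent.TH314.ET.Thresh

/-!
# Density thresholds inside sets with economical coverings
-/

set_option autoImplicit false

open Finset Filter Topology Pointwise

namespace Pool.Agent.R448

open Pool.Agent.TH314.ET (rep ForcesIn seg_inter_card rep_mono)

/-- an abstract threshold theorem -/
theorem forces_abstract {ι : Type} [Fintype ι] (S : ι → Set ℕ) (g : ℕ → ℝ)
    (hg : ∀ᶠ N in atTop, 0 < g N) (τ : ι → ℕ → ℝ) (C : ℝ) (hC : 0 < C)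
    (h : ∀ i, ∀ᶠ N : ℕ in atTop, 0 ≤ τ i N ∧ ∀ (A : Set ℕ) (B : ℕ), A ⊆ S i →
      (∀ n, rep A n ≤ B) → ((A ∩ Set.Icc 1 N).ncard : ℝ) ^ 2 * τ i N ≤ C * B * N)
    (hσ : ∀ i, Tendsto (fun N => τ i N / g N ^ 2) atTop atTop) :
    ForcesIn (⋃ i, S i) g := by
  classical
  intro A hA hc B
  obtain ⟨c, hc, hfreq⟩ := hc
  by_contra hcon
  push Not at hcon
  -- the union is not empty
  have hk : 0 < Fintype.card ι := by
    by_contra h0
    have h1 : Fintype.card ι = 0 := by omega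
    obtain ⟨N, hN1, hN2, hN3⟩ := (hfreq.and_eventually (hg.and (eventually_ge_atTop 1))).exists
    have h2 := seg_inter_card S A hA N
    have := Fintype.card_eq_zero_iff.1 h1
    rw [Finset.univ_eq_empty, Finset.sum_empty] at h2
    have h3 : (A ∩ Set.Icc 1 N).ncard = 0 := by omega
    rw [h3] at hN1
    have h4 : (0 : ℝ) < N := by exact_mod_cast hN3
    have h5 : 0 < c * Real.sqrt N / g N := by positivity
    norm_num at hN1
    linarith
  set k : ℝ := (Fintype.card ι : ℝ) with hk'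
  have hkpos : 0 < k := by rw [hk']; exact_mod_cast hk
  -- pigeonhole
  have hpig : ∃ i, ∃ᶠ N : ℕ in atTop,
      c / k * Real.sqrt N / g N ≤ (((A ∩ S i) ∩ Set.Icc 1 N).ncard : ℝ) := by
    by_contra h
    push Not at h
    have h1 : ∀ᶠ N : ℕ in atTop, ∀ i,
        (((A ∩ S i) ∩ Set.Icc 1 N).ncard : ℝ) < c / k * Real.sqrt N / g N :=
      eventually_all.2 h
    obtain ⟨N, hN1, hN2⟩ := (hfreq.and_eventually h1).exists
    have h2 : ((A ∩ Set.Icc 1 N).ncard : ℝ) ≤ ∑ i, (((A ∩ S i) ∩ Set.Icc 1 N).ncard : ℝ) := by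
      exact_mod_cast seg_inter_card S A hA N
    have h3 : ∑ i, (((A ∩ S i) ∩ Set.Icc 1 N).ncard : ℝ) < ∑ _i : ι, c / k * Real.sqrt N / g N := by
      apply Finset.sum_lt_sum_of_nonempty
      · rw [Finset.univ_nonempty_iff]
        exact Fintype.card_pos_iff.1 hk
      · exact fun i _ => hN2 i
    rw [Finset.sum_const, Finset.card_univ, nsmul_eq_mul, ← hk'] at h3
    have h4 : k * (c / k * Real.sqrt N / g N) = c * Real.sqrt N / g N := by
      field_simp
    rw [h4] at h3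
    linarith
  obtain ⟨i, hi⟩ := hpig
  have hlim := (hσ i).eventually_gt_atTop (C * B * (k / c) ^ 2)
  obtain ⟨N, hN1, hN2, hN3, hN4, hN5⟩ :=
    (hi.and_eventually (hlim.and (hg.and ((eventually_ge_atTop 1).and (h i))))).exists
  have h1 := hN5.2 (A ∩ S i) B Set.inter_subset_right
    (fun n => (rep_mono (Set.inter_subset_left : A ∩ S i ⊆ A) n).trans (hcon n).le)
  have hNpos : (0 : ℝ) < N := by exact_mod_cast hN4
  have h3 : (c / k * Real.sqrt N / g N) ^ 2 ≤ (((A ∩ S i) ∩ Set.Icc 1 N).ncard : ℝ) ^ 2 :=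
    pow_le_pow_left₀ (by positivity) hN1 2
  have h4 : (c / k * Real.sqrt N / g N) ^ 2 = (c / k) ^ 2 * N / g N ^ 2 := by
    rw [div_pow, mul_pow, Real.sq_sqrt hNpos.le]
  rw [h4] at h3
  have h5 : (c / k) ^ 2 * N / g N ^ 2 * τ i N ≤ C * B * N :=
    (mul_le_mul_of_nonneg_right h3 hN5.1).trans h1
  have h6 : (c / k) ^ 2 * (τ i N / g N ^ 2) ≤ C * B := by
    have h7 : (N : ℝ) * ((c / k) ^ 2 * (τ i N / g N ^ 2)) ≤ (N : ℝ) * (C * B) := by
      calc (N : ℝ) * ((c / k) ^ 2 * (τ i N / g N ^ 2))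
          = (c / k) ^ 2 * (N : ℝ) / g N ^ 2 * τ i N := by ring
        _ ≤ (C * (B : ℝ) * (N : ℝ) : ℝ) := h5
        _ = (N : ℝ) * (C * B) := by ring
    exact le_of_mul_le_mul_left h7 hNpos
  have h7 : (c / k) ^ 2 * (C * B * (k / c) ^ 2) < (c / k) ^ 2 * (τ i N / g N ^ 2) :=
    mul_lt_mul_of_pos_left hN2 (by positivity)
  have h8 : (c / k) ^ 2 * (C * B * (k / c) ^ 2) = C * B := by
    field_simp
  linarith

/-- coverings pass to subsets -/
theorem Covers.mono {A S : Set ℕ} {N : ℕ} {q : ℝ} {k : ℕ} {X B : ℕ → Finset ℤ} (h : A ⊆ S)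
    (hS : Covers S N q k X B) : Covers A N q k X B :=
  ⟨fun j hj a ha haN => hS.1 j hj a (h ha) haN, hS.2⟩

/-- **Thresholds from coverings.** -/
theorem forces_of_covers {ι : Type} [Fintype ι] (S : ι → Set ℕ) (q : ℝ) (hq : 1 < q) (g : ℕ → ℝ)
    (hg : ∀ᶠ N in atTop, 0 < g N) (σ : ι → ℕ → ℝ)
    (hcov : ∀ i, ∀ᶠ N : ℕ in atTop, ∃ (k : ℕ) (X B : ℕ → Finset ℤ), Covers (S i) N q k X B ∧
      σ i N ≤ ∑ j ∈ range k, (N : ℝ) / (((X j).card : ℝ) ^ 2 * (B j - B j).card))
    (hσ : ∀ i, Tendsto (fun N => σ i N / g N ^ 2) atTop atTop) :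
    ForcesIn (⋃ i, S i) g := by
  classical
  have hsq1 : 1 < Real.sqrt q := by
    rw [show (1 : ℝ) = Real.sqrt 1 by simp]
    exact Real.sqrt_lt_sqrt (by norm_num) hq
  set C : ℝ := (Real.sqrt q + 1) / (Real.sqrt q - 1) with hC
  have hC0 : 0 < C := by
    rw [hC]
    apply div_pos <;> linarith
  refine forces_abstract S g hg σ C hC0 (fun i => ?_) hσ
  have hpos : ∀ᶠ N : ℕ in atTop, 0 ≤ σ i N := by
    filter_upwards [(hσ i).eventually_gt_atTop 0, hg] with N h1 h2
    by_contra hcon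
    push Not at hcon
    have : σ i N / g N ^ 2 < 0 := div_neg_of_neg_of_pos hcon (by positivity)
    linarith
  filter_upwards [hcov i, hpos, eventually_ge_atTop 1] with N hN h0 hN1
  refine ⟨h0, fun A B hA hB => ?_⟩
  obtain ⟨k, X, D, hD, hσN⟩ := hN
  obtain ⟨n, _, hn⟩ := covers_main A N q hq k X D (hD.mono hA)
  have hNpos : (0 : ℝ) < N := by exact_mod_cast hN1
  have h3 : ∑ j ∈ range k, (N : ℝ) / (((X j).card : ℝ) ^ 2 * (D j - D j).card) =
      N * ∑ j ∈ range k, 1 / (((X j).card : ℝ) ^ 2 * (D j - D j).card) := by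
    rw [Finset.mul_sum]
    apply Finset.sum_congr rfl
    intro j _
    ring
  rw [h3] at hσN
  set T : ℝ := ∑ j ∈ range k, 1 / (((X j).card : ℝ) ^ 2 * (D j - D j).card) with hT
  have hT0 : 0 ≤ T := Finset.sum_nonneg fun j _ => by positivity
  have h4 : ((A ∩ Set.Icc 1 N).ncard : ℝ) ^ 2 ≤ ((A ∩ Set.Icc 0 N).ncard : ℝ) ^ 2 :=
    pow_le_pow_left₀ (Nat.cast_nonneg _) (by exact_mod_cast ncard_icc_zero A N) 2
  calc ((A ∩ Set.Icc 1 N).ncard : ℝ) ^ 2 * σ i N
      ≤ ((A ∩ Set.Icc 0 N).ncard : ℝ) ^ 2 * (N * T) :=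
        mul_le_mul h4 hσN h0 (by positivity)
    _ = (((A ∩ Set.Icc 0 N).ncard : ℝ) ^ 2 * T) * N := by ring
    _ ≤ (C * rep A n) * N := mul_le_mul_of_nonneg_right hn hNpos.le
    _ ≤ C * B * N := by
        apply mul_le_mul_of_nonneg_right _ hNpos.le
        apply mul_le_mul_of_nonneg_left _ hC0.le
        exact_mod_cast hB n

/-- the arc inequality for all large `N`, uniformly in the set -/
theorem arcs_all (q : ℝ) (hq : 1 < q) (k : ℕ) (α : ℕ → ℝ) (m : ℕ → ℕ)
    (hm : ∀ j < k, 0 < m j) (hlac : ∀ j, j + 1 < k → q * (m j : ℝ) ≤ m (j + 1))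
    (hα : ∀ j < k, ∀ d : ℕ, 0 < d → d < m j → ∀ z : ℤ, (d : ℝ) * α j ≠ z) :
    ∃ N₀ : ℕ, ∀ N : ℕ, N₀ ≤ N → ∀ (S A : Set ℕ) (K : ℕ), A ⊆ S → (∀ n, rep A n ≤ K) →
      ((A ∩ Set.Icc 1 N).ncard : ℝ) ^ 2 *
        ∑ j ∈ range k, (m j : ℝ) / (arcs S (α j) (m j) : ℝ) ^ 2 ≤
      20 * ((Real.sqrt q + 1) / (Real.sqrt q - 1)) * K * N := by
  classical
  have hsq1 : 1 < Real.sqrt q := by
    rw [show (1 : ℝ) = Real.sqrt 1 by simp]
    exact Real.sqrt_lt_sqrt (by norm_num) hq
  have hC0 : 0 < (Real.sqrt q + 1) / (Real.sqrt q - 1) := by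
    apply div_pos <;> linarith
  -- thresholds
  have hth : ∀ j, ∃ N₀ : ℕ, j < k → 0 < N₀ ∧ ∀ N : ℕ, N₀ ≤ N →
      ((nearSet (α j) (m j) N).card : ℝ) ≤ 20 * N / m j := by
    intro j
    by_cases hj : j < k
    · obtain ⟨N₀, h0, h1⟩ := card_nearSet (α j) (m j) (hm j hj) (hα j hj)
      exact ⟨N₀, fun _ => ⟨h0, h1⟩⟩
    · exact ⟨0, fun h => absurd h hj⟩
  choose N₀ hN₀ using hth
  refine ⟨∑ j ∈ range k, N₀ j + 1, fun N hN2 S A K hAS hK => ?_⟩
  have hN0 : (0 : ℝ) < N := by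
    have : 0 < N := by omega
    exact_mod_cast this
  have hNj : ∀ j < k, N₀ j ≤ N := by
    intro j hj
    have := Finset.single_le_sum (f := N₀) (fun i _ => Nat.zero_le _) (mem_range.2 hj)
    omega
  set F := truncZ A N with hF
  have hle : ((A ∩ Set.Icc 1 N).ncard : ℝ) ≤ (F.card : ℝ) := by
    rw [hF, card_truncZ]
    exact_mod_cast ncard_icc_zero A N
  rcases F.eq_empty_or_nonempty with hFe | hFne
  · rw [hFe] at hle
    simp only [Finset.card_empty, Nat.cast_zero] at hle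
    have : ((A ∩ Set.Icc 1 N).ncard : ℝ) = 0 := le_antisymm hle (Nat.cast_nonneg _)
    rw [this]
    simp only [ne_eq, OfNat.ofNat_ne_zero, not_false_eq_true, zero_pow, zero_mul]
    positivity
  have hKF : ∀ n, rZ F n ≤ K := by
    intro n
    obtain ⟨m', h1, _⟩ := rZ_eq A N n
    exact h1.trans (hK m')
  have hFA : ∀ a ∈ F, ∃ b ∈ S, ((b : ℕ) : ℤ) = a := by
    intro a ha
    obtain ⟨b, hb1, _, hb3⟩ := mem_truncZ.1 ha
    exact ⟨b, hAS hb1, hb3⟩
  have harc : ∀ j < k, 0 < arcs S (α j) (m j) := by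
    intro j hj
    refine lt_of_lt_of_le ?_ (card_idx_le S (α j) (m j) (hm j hj) F hFA)
    exact Finset.card_pos.2 (hFne.image _)
  have hmj : ∀ j < k, (0 : ℝ) < m j := fun j hj => by exact_mod_cast hm j hj
  -- decreasing sizes: use `w j = 20 N / m j`
  have hlac2 : ∀ i < k, ∀ j < k,
      min (Real.sqrt (20 * N / m i) ^ 2) (Real.sqrt (20 * N / m j) ^ 2) ≤
      (Real.sqrt q)⁻¹ ^ ((i - j) + (j - i)) *
        (Real.sqrt (20 * N / m i) * Real.sqrt (20 * N / m j)) := by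
    intro i hi j hj
    have hmi := hmj i hi
    have hmj' := hmj j hj
    have h1 := lac_min hq k (fun j => (m j : ℝ)) hmj hlac i hi j hj
    rw [Real.sq_sqrt hmi.le, Real.sq_sqrt hmj'.le] at h1
    rw [Real.sq_sqrt (by positivity), Real.sq_sqrt (by positivity)]
    have h2 : min (20 * (N : ℝ) / m i) (20 * N / m j) = 20 * N * min (m i : ℝ) (m j) /
        ((m i : ℝ) * m j) := by
      rcases le_total (m i : ℝ) (m j) with h | h
      · rw [min_eq_left h, min_eq_right]
        · field_simp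
        · gcongr
      · rw [min_eq_right h, min_eq_left]
        · field_simp
        · gcongr
    have h3 : Real.sqrt (20 * N / m i) * Real.sqrt (20 * N / m j) =
        20 * N * (Real.sqrt (m i) * Real.sqrt (m j)) / ((m i : ℝ) * m j) := by
      rw [Real.sqrt_div (by positivity), Real.sqrt_div (by positivity)]
      have h4 : Real.sqrt (20 * (N : ℝ)) * Real.sqrt (20 * N) = 20 * N :=
        Real.mul_self_sqrt (by positivity)
      have h5 : Real.sqrt (m i : ℝ) * Real.sqrt (m i) = m i := Real.mul_self_sqrt hmi.le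
      have h6 : Real.sqrt (m j : ℝ) * Real.sqrt (m j) = m j := Real.mul_self_sqrt hmj'.le
      have h7 : 0 < Real.sqrt (m i : ℝ) := Real.sqrt_pos.2 hmi
      have h8 : 0 < Real.sqrt (m j : ℝ) := Real.sqrt_pos.2 hmj'
      rw [div_mul_div_comm, h4, div_eq_div_iff (by positivity) (by positivity)]
      calc 20 * (N : ℝ) * ((m i : ℝ) * m j) = 20 * N * ((Real.sqrt (m i : ℝ) * Real.sqrt (m i)) *
            (Real.sqrt (m j : ℝ) * Real.sqrt (m j))) := by rw [h5, h6]
        _ = _ := by ring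
    rw [h2, h3]
    rw [mul_div_assoc', div_le_div_iff_of_pos_right (by positivity)]
    calc 20 * (N : ℝ) * min (m i : ℝ) (m j) ≤ 20 * N * ((Real.sqrt q)⁻¹ ^ ((i - j) + (j - i)) *
          (Real.sqrt (m i) * Real.sqrt (m j))) := mul_le_mul_of_nonneg_left h1 (by positivity)
      _ = _ := by ring
  have hmain := main F hFne K hKF k (fun j => nearSet (α j) (m j) N)
    (fun j => (arcs S (α j) (m j) : ℝ)) (fun j => Real.sqrt (20 * N / m j))
    (Real.sqrt q)⁻¹ (by positivity) (inv_lt_one_of_one_lt₀ hsq1)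
    (fun j hj => by exact_mod_cast harc j hj)
    (fun j hj => Real.sqrt_pos.2 (by have := hmj j hj; positivity))
    (by
      intro j hj
      rw [div_le_iff₀ (by exact_mod_cast harc j hj), mul_comm]
      have h1 := pairs_in_cells F (idx (α j) (m j)) (F.image (idx (α j) (m j)))
        (fun a ha => Finset.mem_image_of_mem _ ha) (nearSet (α j) (m j) N) (by
          intro a ha b hb hab
          obtain ⟨a', _, ha2, rfl⟩ := mem_truncZ.1 ha
          obtain ⟨b', _, hb2, rfl⟩ := mem_truncZ.1 hb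
          exact same_arc (α j) (m j) N (hm j hj) a' b' ⟨by positivity, by exact_mod_cast ha2⟩
            ⟨by positivity, by exact_mod_cast hb2⟩ hab)
      refine h1.trans (mul_le_mul_of_nonneg_right ?_ (Nat.cast_nonneg _))
      exact_mod_cast card_idx_le S (α j) (m j) (hm j hj) F hFA)
    (by
      intro j hj
      have := hmj j hj
      rw [Real.sq_sqrt (by positivity)]
      exact (hN₀ j hj).2 N (hNj j hj))
    hlac2
  rw [one_add_div hq] at hmain
  have h3 : ∑ j ∈ range k, 1 / ((arcs S (α j) (m j) : ℝ) * Real.sqrt (20 * N / m j)) ^ 2 =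
      (∑ j ∈ range k, (m j : ℝ) / (arcs S (α j) (m j) : ℝ) ^ 2) / (20 * N) := by
    rw [Finset.sum_div]
    apply Finset.sum_congr rfl
    intro j hj
    have h4 := hmj j (mem_range.1 hj)
    have h5 : (0 : ℝ) < arcs S (α j) (m j) := by exact_mod_cast harc j (mem_range.1 hj)
    rw [mul_pow, Real.sq_sqrt (by positivity)]
    field_simp
  rw [h3] at hmain
  set T : ℝ := ∑ j ∈ range k, (m j : ℝ) / (arcs S (α j) (m j) : ℝ) ^ 2 with hT
  have hT0 : 0 ≤ T := Finset.sum_nonneg fun j _ => by positivity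
  have h4 : ((A ∩ Set.Icc 1 N).ncard : ℝ) ^ 2 * (T / (20 * N)) ≤
      K * ((Real.sqrt q + 1) / (Real.sqrt q - 1)) := by
    refine (mul_le_mul_of_nonneg_right ?_ (by positivity)).trans hmain
    exact pow_le_pow_left₀ (Nat.cast_nonneg _) hle 2
  have h5 : ((A ∩ Set.Icc 1 N).ncard : ℝ) ^ 2 * T =
      (((A ∩ Set.Icc 1 N).ncard : ℝ) ^ 2 * (T / (20 * N))) * (20 * N) := by field_simp
  rw [h5]
  calc (((A ∩ Set.Icc 1 N).ncard : ℝ) ^ 2 * (T / (20 * N))) * (20 * N)
      ≤ (K * ((Real.sqrt q + 1) / (Real.sqrt q - 1))) * (20 * N) :=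
        mul_le_mul_of_nonneg_right h4 (by positivity)
    _ = _ := by ring

/-- **Existence of a threshold** inside sets which visit few arcs. -/
theorem exists_threshold_arcs {ι : Type} [Fintype ι] (S : ι → Set ℕ) (q : ℝ) (hq : 1 < q)
    (α : ι → ℕ → ℝ) (m : ι → ℕ → ℕ) (hm : ∀ i j, 0 < m i j)
    (hlac : ∀ i j, q * (m i j : ℝ) ≤ m i (j + 1))
    (hα : ∀ i j, ∀ d : ℕ, 0 < d → d < m i j → ∀ z : ℤ, (d : ℝ) * α i j ≠ z)
    (hdiv : ∀ i, ¬ Summable fun j => (m i j : ℝ) / (arcs (S i) (α i j) (m i j) : ℝ) ^ 2) :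
    ∃ g : ℕ → ℝ, Tendsto g atTop atTop ∧ ForcesIn (⋃ i, S i) g := by
  classical
  have hsq1 : 1 < Real.sqrt q := by
    rw [show (1 : ℝ) = Real.sqrt 1 by simp]
    exact Real.sqrt_lt_sqrt (by norm_num) hq
  have hC0 : 0 < (Real.sqrt q + 1) / (Real.sqrt q - 1) := by
    apply div_pos <;> linarith
  -- thresholds for `k` terms
  have hall : ∀ k : ℕ, ∃ N₀ : ℕ, ∀ i, ∀ N : ℕ, N₀ ≤ N → ∀ (A : Set ℕ) (K : ℕ), A ⊆ S i →
      (∀ n, rep A n ≤ K) → ((A ∩ Set.Icc 1 N).ncard : ℝ) ^ 2 *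
        ∑ j ∈ range k, (m i j : ℝ) / (arcs (S i) (α i j) (m i j) : ℝ) ^ 2 ≤
      20 * ((Real.sqrt q + 1) / (Real.sqrt q - 1)) * K * N := by
    intro k
    have h1 : ∀ i, ∃ N₀ : ℕ, ∀ N : ℕ, N₀ ≤ N → ∀ (A : Set ℕ) (K : ℕ), A ⊆ S i →
        (∀ n, rep A n ≤ K) → ((A ∩ Set.Icc 1 N).ncard : ℝ) ^ 2 *
          ∑ j ∈ range k, (m i j : ℝ) / (arcs (S i) (α i j) (m i j) : ℝ) ^ 2 ≤
        20 * ((Real.sqrt q + 1) / (Real.sqrt q - 1)) * K * N := by
      intro i
      obtain ⟨N₀, h⟩ := arcs_all q hq k (α i) (m i) (fun j _ => hm i j) (fun j _ => hlac i j)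
        (fun j _ => hα i j)
      exact ⟨N₀, fun N hN A K hA hK => h N hN (S i) A K hA hK⟩
    choose N₀ h using h1
    refine ⟨∑ i, N₀ i, fun i N hN => h i N (le_trans ?_ hN)⟩
    exact Finset.single_le_sum (f := N₀) (fun i _ => Nat.zero_le _) (Finset.mem_univ i)
  choose N₀ hN₀ using hall
  -- the number of terms used for `N`
  set L : ℕ → ℕ := fun k => k + ∑ j ∈ range (k + 1), N₀ j with hL
  have hLmono : Monotone L := by
    intro a b hab
    simp only [hL]
    apply add_le_add hab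
    exact Finset.sum_le_sum_of_subset (Finset.range_mono (by omega))
  have hLN : ∀ k, N₀ k ≤ L k := by
    intro k
    simp only [hL]
    have h1 : N₀ k ≤ ∑ j ∈ range (k + 1), N₀ j :=
      Finset.single_le_sum (f := N₀) (fun i _ => Nat.zero_le _) (mem_range.2 (Nat.lt_succ_self k))
    omega
  set κ : ℕ → ℕ := fun N => Nat.findGreatest (fun k => L k ≤ N) N with hκ
  have hκ1 : ∀ N, L 0 ≤ N → L (κ N) ≤ N := by
    intro N hN
    exact Nat.findGreatest_spec (P := fun k => L k ≤ N) (Nat.zero_le N) hN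
  have hκ2 : ∀ k N, L k ≤ N → k ≤ κ N := by
    intro k N hN
    have hkN : k ≤ N := by
      have h1 : k + ∑ j ∈ range (k + 1), N₀ j ≤ N := hN
      omega
    exact Nat.le_findGreatest hkN hN
  have hκt : Tendsto κ atTop atTop := by
    rw [tendsto_atTop]
    intro b
    filter_upwards [eventually_ge_atTop (L b)] with N hN
    exact hκ2 b N hN
  set σ : ι → ℕ → ℝ := fun i k =>
    ∑ j ∈ range k, (m i j : ℝ) / (arcs (S i) (α i j) (m i j) : ℝ) ^ 2 with hσdef
  have hσt : ∀ i, Tendsto (σ i) atTop atTop := by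
    intro i
    rw [tendsto_atTop]
    intro b
    obtain ⟨k, hk⟩ : ∃ k, b < σ i k := by
      by_contra hcon
      push Not at hcon
      exact hdiv i (summable_of_sum_range_le (c := b) (fun j => by positivity) hcon)
    filter_upwards [eventually_ge_atTop k] with N hN
    refine hk.le.trans ?_
    apply Finset.sum_le_sum_of_subset_of_nonneg (Finset.range_mono hN)
    intro j _ _
    positivity
  rcases isEmpty_or_nonempty ι with hι | hι
  · refine ⟨fun N => (N : ℝ), tendsto_natCast_atTop_atTop, ?_⟩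
    refine forces_abstract S _ ?_ (fun i _ => 0) 1 one_pos (fun i => (hι.false i).elim)
      (fun i => (hι.false i).elim)
    filter_upwards [eventually_ge_atTop 1] with N hN
    exact_mod_cast hN
  · set μ : ℕ → ℝ := fun N => Finset.univ.inf' Finset.univ_nonempty (fun i => σ i (κ N)) with hμ
    have hμt : Tendsto μ atTop atTop := by
      rw [tendsto_atTop]
      intro b
      have : ∀ᶠ N in atTop, ∀ i, b ≤ σ i (κ N) := by
        rw [eventually_all]
        intro i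
        exact ((hσt i).comp hκt).eventually_ge_atTop b
      filter_upwards [this] with N hN
      rw [hμ]
      simp only [Finset.le_inf'_iff, Finset.mem_univ, forall_const]
      exact hN
    refine ⟨fun N => Real.sqrt (Real.sqrt (μ N)), ?_, ?_⟩
    · exact Real.tendsto_sqrt_atTop.comp (Real.tendsto_sqrt_atTop.comp hμt)
    · refine forces_abstract S _ ?_ (fun i N => σ i (κ N))
        (20 * ((Real.sqrt q + 1) / (Real.sqrt q - 1))) (by positivity) ?_ ?_
      · filter_upwards [hμt.eventually_gt_atTop 0] with N hN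
        exact Real.sqrt_pos.2 (Real.sqrt_pos.2 hN)
      · intro i
        filter_upwards [eventually_ge_atTop (L 0)] with N hN
        refine ⟨Finset.sum_nonneg fun j _ => by positivity, fun A B hA hB => ?_⟩
        exact hN₀ (κ N) i N ((hLN _).trans (hκ1 N hN)) A B hA hB
      · intro i
        have h1 : Tendsto (fun N => Real.sqrt (μ N)) atTop atTop :=
          Real.tendsto_sqrt_atTop.comp hμt
        apply tendsto_atTop_mono' atTop _ h1
        filter_upwards [hμt.eventually_gt_atTop 0] with N hN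
        have h2 : μ N ≤ σ i (κ N) := Finset.inf'_le _ (Finset.mem_univ i)
        have h3 : (0 : ℝ) < Real.sqrt (μ N) := Real.sqrt_pos.2 hN
        rw [Real.sq_sqrt h3.le, le_div_iff₀ h3, Real.mul_self_sqrt hN.le]
        exact h2

end Pool.Agent.R448
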